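import Mathlib
import Pool.Agent.H386R2.HL.E

namespace Pool.Agent.H373R2.BH
open Finset

/-- value `c + b_0 + b_1 n + ... + b_e n^e` -/
def val {e : ℕ} (c : ℕ) (b : Fin (e + 1) → ℕ) (n : ℕ) : ℕ := c + ∑ j, b j * n ^ (j : ℕ)

/-- the box `[1,H]^(e+1)` -/
def bx (e H : ℕ) : Finset (Fin (e + 1) → ℕ) := Fintype.piFinset (fun _ => Icc 1 H)

lemma mem_bx {e H : ℕ} {b : Fin (e + 1) → ℕ} : b ∈ bx e H ↔ ∀ j, 1 ≤ b j ∧ b j ≤ H := by
  simp [bx, Fintype.mem_piFinset]

lemma card_bx (e H : ℕ) : #(bx e H) = H ^ (e + 1) := by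
  simp [bx, Fintype.card_piFinset]

lemma val_cons {e : ℕ} (c u : ℕ) (b : Fin (e + 1) → ℕ) (n : ℕ) :
    val c (Fin.cons u b : Fin (e + 1 + 1) → ℕ) n = c + u + n * val 0 b n := by
  unfold val
  rw [Fin.sum_univ_succ]
  simp only [Fin.cons_zero, Fin.val_zero, pow_zero, mul_one, Fin.cons_succ, Fin.val_succ, zero_add]
  rw [mul_sum, add_assoc]
  congr 2
  apply sum_congr rfl
  intro j _
  ring

lemma val_zero (c : ℕ) (b : Fin (0 + 1) → ℕ) (n : ℕ) : val c b n = c + b 0 := by
  unfold val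
  simp

lemma val_add {e : ℕ} (c c' : ℕ) (b : Fin (e + 1) → ℕ) (n : ℕ) : val (c + c') b n = c + val c' b n := by
  unfold val; ring

lemma fin_one_eq (j : Fin (0 + 1)) : j = 0 := by
  ext; simp

lemma sum_bx_zero {M : Type*} [AddCommMonoid M] (H : ℕ) (F : (Fin (0 + 1) → ℕ) → M) :
    ∑ b ∈ bx 0 H, F b = ∑ u ∈ Icc 1 H, F (fun _ => u) := by
  refine sum_nbij' (fun b => b 0) (fun u _ => u) ?_ ?_ ?_ ?_ ?_
  · intro b hb; rw [mem_bx] at hb; exact mem_Icc.2 (hb 0)
  · intro u hu; rw [mem_bx]; intro _; exact mem_Icc.1 hu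
  · intro b _; funext j; rw [fin_one_eq j]
  · intro u _; rfl
  · intro b _; congr 1; funext j; rw [fin_one_eq j]

lemma sum_bx_succ {M : Type*} [AddCommMonoid M] (e H : ℕ) (F : (Fin (e + 1 + 1) → ℕ) → M) :
    ∑ b ∈ bx (e + 1) H, F b = ∑ b ∈ bx e H, ∑ u ∈ Icc 1 H, F (Fin.cons u b : Fin (e + 1 + 1) → ℕ) := by
  rw [← sum_product']
  refine sum_nbij' (fun b => (Fin.tail b, b 0)) (fun q => (Fin.cons q.2 q.1 : Fin (e + 1 + 1) → ℕ)) ?_ ?_ ?_ ?_ ?_
  · intro b hb
    rw [mem_bx] at hb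
    rw [mem_product]
    exact ⟨mem_bx.2 (fun j => hb j.succ), mem_Icc.2 (hb 0)⟩
  · intro q hq
    rw [mem_product] at hq
    rw [mem_bx]
    intro j
    refine Fin.cases ?_ ?_ j
    · simpa using mem_Icc.1 hq.2
    · intro j; simpa using mem_bx.1 hq.1 j
  · intro b _; exact Fin.cons_self_tail b
  · intro q _; simp
  · intro b _; simp [Fin.cons_self_tail]

lemma sum_range_mul' (f : ℕ → ℝ) (n M : ℕ) :
    ∑ t ∈ range (M * n), f t = ∑ s ∈ range M, ∑ r ∈ range n, f (n * s + r) := by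
  induction M with
  | zero => simp
  | succ M ih =>
    rw [sum_range_succ, ← ih, Nat.add_mul, one_mul, sum_range_add]
    congr 1
    apply sum_congr rfl
    intro r _
    rw [Nat.mul_comm n M]

lemma sum_Icc_one (f : ℕ → ℝ) (H : ℕ) : ∑ u ∈ Icc 1 H, f u = ∑ t ∈ range H, f (1 + t) := by
  rw [← Finset.Ico_add_one_right_eq_Icc, sum_Ico_eq_sum_range]; simp

/-- size bound of the offset of a cell -/
def Uo (n H : ℕ) : ℕ → ℕ
  | 0 => 1
  | e + 1 => H + n * Uo n H e

theorem cells (n Q H : ℕ) (hn : 1 ≤ n) (hQ : n * Q ≤ H) :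
    ∀ (e : ℕ) (φ : ℕ → ℝ) (_ : ∀ m, 0 ≤ φ m) (g : ℕ) (B : ℝ),
      (∀ C, g < C → C ≤ g + Uo n H e → B ≤ ∑ t ∈ range (H * n ^ e), φ (C + t)) →
      (Q : ℝ) ^ e * B ≤ ∑ b ∈ bx e H, φ (val g b n) := by
  intro e
  induction e with
  | zero =>
    intro φ hφ g B hB
    have h := hB (g + 1) (by omega) (by simp [Uo])
    rw [sum_bx_zero, pow_zero, one_mul]
    refine h.trans (le_of_eq ?_)
    rw [pow_zero, mul_one, sum_Icc_one]
    apply sum_congr rfl
    intro t _
    rw [val_zero, add_assoc]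
  | succ e ih =>
    intro φ hφ g B hB
    rw [sum_bx_succ]
    have key : ∀ q ∈ range Q, (Q : ℝ) ^ e * B ≤
        ∑ b ∈ bx e H, ∑ r ∈ range n, φ (g + n * q + 1 + r + n * val 0 b n) := by
      intro q hq
      have hq' := mem_range.1 hq
      have h1 := ih (fun m => ∑ r ∈ range n, φ (g + n * q + 1 + r + n * m))
        (fun m => sum_nonneg (fun r _ => hφ _)) 0 B ?_
      · exact h1
      · intro C hC0 hC
        have hnq : n * q + 1 ≤ H := by
          have : n * (q + 1) ≤ n * Q := Nat.mul_le_mul_left n hq'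
          have h2 : n * (q + 1) = n * q + n := by ring
          omega
        have h2 := hB (g + n * q + 1 + n * C) (by omega) (by
          have : n * C ≤ n * Uo n H e := Nat.mul_le_mul_left n (by omega)
          simp only [Uo]; omega)
        refine h2.trans (le_of_eq ?_)
        rw [show H * n ^ (e + 1) = (H * n ^ e) * n by ring, sum_range_mul']
        apply sum_congr rfl
        intro s _
        apply sum_congr rfl
        intro r _
        congr 1
        ring
    have h3 : (Q : ℝ) ^ (e + 1) * B ≤ ∑ q ∈ range Q, ∑ b ∈ bx e H, ∑ r ∈ range n,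
        φ (g + n * q + 1 + r + n * val 0 b n) := by
      calc (Q : ℝ) ^ (e + 1) * B = ∑ q ∈ range Q, (Q : ℝ) ^ e * B := by
            rw [sum_const, card_range, nsmul_eq_mul]; ring
        _ ≤ _ := sum_le_sum key
    refine h3.trans ?_
    rw [sum_comm]
    apply sum_le_sum
    intro b _
    have h4 : ∑ q ∈ range Q, ∑ r ∈ range n, φ (g + n * q + 1 + r + n * val 0 b n) =
        ∑ t ∈ range (Q * n), φ (g + (1 + t) + n * val 0 b n) := by
      rw [sum_range_mul']
      apply sum_congr rfl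
      intro s _
      apply sum_congr rfl
      intro r _
      congr 1
      ring
    rw [h4, sum_Icc_one (fun u => φ (val g (Fin.cons u b : Fin (e + 1 + 1) → ℕ) n))]
    calc ∑ t ∈ range (Q * n), φ (g + (1 + t) + n * val 0 b n) ≤
        ∑ t ∈ range H, φ (g + (1 + t) + n * val 0 b n) := by
          apply sum_le_sum_of_subset_of_nonneg
          · apply range_subset_range.2; rw [Nat.mul_comm]; exact hQ
          · intro i _ _; exact hφ _
      _ = _ := by
          apply sum_congr rfl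
          intro t _
          rw [val_cons]

lemma Uo_le (n H : ℕ) (hn : 1 ≤ n) : ∀ e, Uo n H e ≤ e * H * n ^ (e - 1) + n ^ e := by
  intro e
  induction e with
  | zero => simp [Uo]
  | succ e ih =>
    simp only [Uo]
    rcases Nat.eq_zero_or_pos e with he | he
    · subst he; simp [Uo]
    · have h1 : n * Uo n H e ≤ n * (e * H * n ^ (e - 1) + n ^ e) := Nat.mul_le_mul_left n ih
      have h2 : n * n ^ (e - 1) = n ^ e := by
        rw [← pow_succ']; congr 1; omega
      have h3 : n * (e * H * n ^ (e - 1) + n ^ e) = e * H * n ^ e + n ^ (e + 1) := by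
        calc n * (e * H * n ^ (e - 1) + n ^ e) = e * H * (n * n ^ (e - 1)) + n ^ (e + 1) := by ring
          _ = _ := by rw [h2]
      have h4 : H ≤ H * n ^ e := Nat.le_mul_of_pos_right H (by positivity)
      have h5 : e + 1 - 1 = e := by omega
      rw [h5]
      have h6 : (e + 1) * H * n ^ e = e * H * n ^ e + H * n ^ e := by ring
      omega

/-- first moment over one box, for one argument `n` -/
theorem first_box (e G : ℕ) (ε : ℝ) (hε : 0 < ε) (hε1 : ε ≤ 1) : ∃ K n₀ H₀ : ℕ, 1 ≤ K ∧ 1 ≤ n₀ ∧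
    ∀ (H n x g : ℕ), H₀ ≤ H → n₀ ≤ n → n ≤ x → K * x ≤ H → g ≤ G * n ^ (e + 1) →
    (1 - ε) * ((H : ℝ) ^ (e + 1) / Real.log (H * (x : ℝ) ^ e)) ≤
      (#{b ∈ bx e H | (val g b n).Prime} : ℝ) := by
  obtain ⟨L₀, hL₀⟩ := Pool.Agent.H386R2.HL.pnt_window (ε / 2) (by positivity)
  obtain ⟨K₁, hK₁⟩ := exists_nat_gt (2 * ((e : ℝ) + 1) / ε)
  refine ⟨max (2 * G + 1) (K₁ + 1), 4 * e + 1, max (max L₀ 4) 0, by omega, by omega, ?_⟩
  intro H n x g hH hn hnx hKx hg
  have hn1 : 1 ≤ n := by omega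
  have hx1 : 1 ≤ x := by omega
  have hH4 : 4 ≤ H := by omega
  have hHL : L₀ ≤ H := by omega
  have hK1x : (K₁ + 1) * x ≤ H := (Nat.mul_le_mul_right x (le_max_right _ _)).trans hKx
  have hGx : (2 * G + 1) * x ≤ H := (Nat.mul_le_mul_right x (le_max_left _ _)).trans hKx
  set Q := H / n with hQ
  have hnQ : n * Q ≤ H := Nat.mul_div_le H n
  set L := H * n ^ e with hL
  have hLL : L₀ ≤ L := hHL.trans (Nat.le_mul_of_pos_right H (by positivity))
  have hL4 : 4 ≤ L := hH4.trans (Nat.le_mul_of_pos_right H (by positivity))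
  have hLpos : (0 : ℝ) < L := by exact_mod_cast (by omega : 0 < L)
  have hU := Uo_le n H hn1 e
  -- offset bound
  have hoff : g + Uo n H e ≤ L := by
    have h1 : 2 * g ≤ L := by
      calc 2 * g ≤ 2 * (G * n ^ (e + 1)) := by omega
        _ = (2 * G * n) * n ^ e := by ring
        _ ≤ H * n ^ e := by
          apply Nat.mul_le_mul_right
          calc 2 * G * n ≤ (2 * G + 1) * x := Nat.mul_le_mul (by omega) hnx
            _ ≤ H := hGx
    have h2 : 4 * (e * H * n ^ (e - 1)) ≤ L := by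
      rcases Nat.eq_zero_or_pos e with he | he
      · simp [he]
      · have h3 : n * n ^ (e - 1) = n ^ e := by
          rw [← pow_succ']; congr 1; omega
        calc 4 * (e * H * n ^ (e - 1)) = (4 * e) * (H * n ^ (e - 1)) := by ring
          _ ≤ n * (H * n ^ (e - 1)) := Nat.mul_le_mul_right _ (by omega)
          _ = H * (n * n ^ (e - 1)) := by ring
          _ = L := by rw [h3]
    have h3 : 4 * n ^ e ≤ L := Nat.mul_le_mul_right _ hH4
    omega
  have hlogpos : 0 < Real.log (H * (x : ℝ) ^ e) := by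
    apply Real.log_pos
    have h1 : (4 : ℝ) ≤ H := by exact_mod_cast hH4
    have h2 : (1 : ℝ) ≤ (x : ℝ) ^ e := one_le_pow₀ (by exact_mod_cast hx1)
    nlinarith
  have hlogL : 0 < Real.log L := Real.log_pos (by
    have : (4 : ℝ) ≤ L := by exact_mod_cast hL4
    linarith)
  have hlogle : Real.log L ≤ Real.log (H * (x : ℝ) ^ e) := by
    apply Real.log_le_log hLpos
    rw [hL]; push_cast
    apply mul_le_mul_of_nonneg_left _ (Nat.cast_nonneg _)
    exact pow_le_pow_left₀ (Nat.cast_nonneg _) (by exact_mod_cast hnx) e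
  -- apply cells
  have hc := cells n Q H hn1 hnQ e (fun m => if m.Prime then (1 : ℝ) else 0)
    (fun m => by positivity) g ((1 - ε / 2) * (L / Real.log L)) (by
      intro C hC1 hC2
      have hw := hL₀ L hLL (C - 1) (by omega)
      have hcs := Pool.Agent.H386R2.HL.card_shift_prime L (C - 1)
      have hcs' : ((#{m ∈ Icc 1 L | (m + (C - 1)).Prime} : ℕ) : ℝ) + Nat.primeCounting (C - 1) =
          Nat.primeCounting (L + (C - 1)) := by exact_mod_cast hcs
      have h5 : ∑ t ∈ range (H * n ^ e), (if (C + t).Prime then (1 : ℝ) else 0) =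
          ((#{m ∈ Icc 1 L | (m + (C - 1)).Prime} : ℕ) : ℝ) := by
        rw [card_filter]
        push_cast
        rw [sum_Icc_one (fun m => if (m + (C - 1)).Prime then (1 : ℝ) else 0)]
        apply sum_congr rfl
        intro t _
        have : 1 + t + (C - 1) = C + t := by omega
        rw [this]
      rw [h5]
      linarith)
  have hcard : (#{b ∈ bx e H | (val g b n).Prime} : ℝ) =
      ∑ b ∈ bx e H, (if (val g b n).Prime then (1 : ℝ) else 0) := by
    rw [card_filter]; push_cast; rfl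
  rw [hcard]
  refine le_trans ?_ hc
  -- Q ≥ (H/n)(1 - n/H)
  have hnpos : (0 : ℝ) < n := by exact_mod_cast hn1
  have hHpos : (0 : ℝ) < H := by exact_mod_cast (by omega : 0 < H)
  have hQlow : (H : ℝ) / n * (1 - n / H) ≤ Q := by
    have h1 : (H : ℝ) < n * (Q + 1) := by
      have h2 : H < n * (H / n + 1) := by
        have := Nat.lt_mul_div_succ H hn1
        simpa using this
      exact_mod_cast h2
    have h3 : (H : ℝ) / n * (1 - n / H) = H / n - 1 := by field_simp
    rw [h3, sub_le_iff_le_add, div_le_iff₀ hnpos]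
    nlinarith
  have hnH : (n : ℝ) / H ≤ ε / (2 * (e + 1)) := by
    have h1 : ((K₁ : ℝ) + 1) * x ≤ H := by exact_mod_cast hK1x
    have h2 : (n : ℝ) ≤ x := by exact_mod_cast hnx
    rw [div_le_div_iff₀ hHpos (by positivity)]
    have h3 : 2 * ((e : ℝ) + 1) / ε < K₁ := hK₁
    rw [div_lt_iff₀ hε] at h3
    have hxpos : (0 : ℝ) < x := by exact_mod_cast hx1
    have h4 : 2 * ((e : ℝ) + 1) * x ≤ (K₁ * ε) * x := mul_le_mul_of_nonneg_right h3.le hxpos.le
    have h5 : ε * (((K₁ : ℝ) + 1) * x) ≤ ε * H := mul_le_mul_of_nonneg_left h1 hε.le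
    have h6 : (n : ℝ) * (2 * (e + 1)) ≤ x * (2 * (e + 1)) := mul_le_mul_of_nonneg_right h2 (by positivity)
    nlinarith
  have he0 : (0 : ℝ) ≤ e := Nat.cast_nonneg e
  have hnH1 : (n : ℝ) / H ≤ 1 := by
    refine hnH.trans ?_
    rw [div_le_one (by positivity)]
    nlinarith
  have hbern : 1 - ε / 2 ≤ (1 - (n : ℝ) / H) ^ e := by
    have h1 := one_add_mul_le_pow (a := -((n : ℝ) / H)) (by linarith) e
    have h2 : (e : ℝ) * (n / H) ≤ ε / 2 := by
      calc (e : ℝ) * (n / H) ≤ e * (ε / (2 * (e + 1))) := mul_le_mul_of_nonneg_left hnH he0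
        _ = (ε / 2) * (e / (e + 1)) := by field_simp
        _ ≤ (ε / 2) * 1 := by
          apply mul_le_mul_of_nonneg_left _ (by positivity)
          rw [div_le_one (by positivity)]; linarith
        _ = ε / 2 := by ring
    have h3 : (1 + -((n : ℝ) / H)) = 1 - n / H := by ring
    rw [h3] at h1
    linarith
  have hQe : ((H : ℝ) / n) ^ e * (1 - ε / 2) ≤ (Q : ℝ) ^ e := by
    calc ((H : ℝ) / n) ^ e * (1 - ε / 2) ≤ ((H : ℝ) / n) ^ e * (1 - (n : ℝ) / H) ^ e :=
          mul_le_mul_of_nonneg_left hbern (by positivity)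
      _ = ((H : ℝ) / n * (1 - n / H)) ^ e := by rw [mul_pow]
      _ ≤ (Q : ℝ) ^ e := by
        apply pow_le_pow_left₀ _ hQlow
        have : 0 ≤ 1 - (n : ℝ) / H := by linarith
        positivity
  have hε2 : 0 ≤ 1 - ε / 2 := by linarith
  calc (1 - ε) * ((H : ℝ) ^ (e + 1) / Real.log (H * (x : ℝ) ^ e))
      ≤ (1 - ε / 2) * (1 - ε / 2) * ((H : ℝ) ^ (e + 1) / Real.log (H * (x : ℝ) ^ e)) := by
        apply mul_le_mul_of_nonneg_right _ (by positivity)
        nlinarith
    _ ≤ (1 - ε / 2) * (1 - ε / 2) * ((H : ℝ) ^ (e + 1) / Real.log L) := by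
        apply mul_le_mul_of_nonneg_left _ (by positivity)
        exact div_le_div_of_nonneg_left (by positivity) hlogL hlogle
    _ = (((H : ℝ) / n) ^ e * (1 - ε / 2)) * ((1 - ε / 2) * (L / Real.log L)) := by
        rw [hL]; push_cast
        rw [div_pow, pow_succ (H : ℝ) e]
        field_simp
    _ ≤ (Q : ℝ) ^ e * ((1 - ε / 2) * (L / Real.log L)) := by
        apply mul_le_mul_of_nonneg_right hQe
        positivity

end Pool.Agent.H373R2.BH
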