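import Mathlib
import Pool.Agent.H646.Tuples
import Pool.Agent.H373R2.BH.Cells

namespace Pool.Agent.H373R2.BH
open Finset
open Pool.Agent.H646 (rat)
open Pool.Agent.H646.TuplesM (rat_ge_one rat_nonneg tuple_bound)

lemma local_factor (A : ℕ) (s : ℝ) (hs0 : 0 < s) (hs1 : s < 1) : ∃ P : ℕ, ∀ p : ℕ, p.Prime →
    (((1 : ℝ) - (p : ℝ)⁻¹)⁻¹) ^ A ≤ (if p < P then 2 ^ A else 1) * (1 + (p : ℝ) ^ (-s)) := by
  obtain ⟨P, hP⟩ := exists_nat_gt ((2 * (A : ℝ) + 1) ^ (1 / (1 - s)))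
  refine ⟨P, fun p hp => ?_⟩
  have h2 : (2 : ℝ) ≤ p := by exact_mod_cast hp.two_le
  have hp0 : (0 : ℝ) < p := by linarith
  have hinv : (p : ℝ)⁻¹ ≤ 1 / 2 := by
    rw [inv_le_comm₀ hp0 (by norm_num)]; norm_num; exact_mod_cast h2
  have hinv0 : 0 < (p : ℝ)⁻¹ := by positivity
  have hr : 0 < (p : ℝ) ^ (-s) := by positivity
  split_ifs with h
  · have h3 : ((1 : ℝ) - (p : ℝ)⁻¹)⁻¹ ≤ 2 := by
      rw [inv_le_comm₀ (by linarith) (by norm_num)]; norm_num; linarith
    have h4 : (((1 : ℝ) - (p : ℝ)⁻¹)⁻¹) ^ A ≤ 2 ^ A :=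
      pow_le_pow_left₀ (inv_nonneg.2 (by linarith)) h3 A
    have h5 : (0 : ℝ) < 2 ^ A := by positivity
    nlinarith
  · push Not at h
    have hs : 0 < 1 - s := by linarith
    have hA : (0 : ℝ) ≤ A := Nat.cast_nonneg A
    have h3 : 2 * (A : ℝ) + 1 ≤ (p : ℝ) ^ (1 - s) := by
      have h4 : (2 * (A : ℝ) + 1) ^ (1 / (1 - s)) ≤ p := by
        have : (P : ℝ) ≤ p := by exact_mod_cast h
        linarith
      calc 2 * (A : ℝ) + 1 = ((2 * (A : ℝ) + 1) ^ (1 / (1 - s))) ^ (1 - s) := by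
            rw [← Real.rpow_mul (by positivity), one_div, inv_mul_cancel₀ hs.ne', Real.rpow_one]
        _ ≤ _ := Real.rpow_le_rpow (by positivity) h4 hs.le
    have h4 : (p : ℝ) ^ (1 - s) = p * (p : ℝ) ^ (-s) := by
      rw [sub_eq_add_neg, Real.rpow_add hp0, Real.rpow_one]
    rw [h4] at h3
    set t := (p : ℝ) ^ (-s) with ht
    have ht1 : t ≤ 1 := by
      rw [ht]; exact Real.rpow_le_one_of_one_le_of_nonpos (by linarith) (by linarith)
    have h5 : 2 * (A : ℝ) * (p : ℝ)⁻¹ ≤ t := by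
      rw [← div_eq_mul_inv, div_le_iff₀ hp0]; nlinarith
    have h6 : 1 - A * (p : ℝ)⁻¹ ≤ (1 - (p : ℝ)⁻¹) ^ A := by
      have := one_add_mul_le_pow (a := -(p : ℝ)⁻¹) (by linarith) A
      have h7 : (1 + -(p : ℝ)⁻¹) = 1 - (p : ℝ)⁻¹ := by ring
      rw [h7] at this
      linarith
    have h7 : 0 < (1 - (p : ℝ)⁻¹) ^ A := by
      have : 0 < 1 - (p : ℝ)⁻¹ := by linarith
      positivity
    rw [inv_pow, one_mul, inv_le_iff_one_le_mul₀ h7]
    calc (1 : ℝ) ≤ (1 + t) * (1 - A * (p : ℝ)⁻¹) := by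
          have : 0 ≤ A * (p : ℝ)⁻¹ := by positivity
          nlinarith
      _ ≤ _ := mul_le_mul_of_nonneg_left h6 (by linarith)

lemma rat_le (A : ℕ) (s : ℝ) (hs0 : 0 < s) (hs1 : s < 1) : ∃ C : ℝ, 0 < C ∧ ∀ n : ℕ, 1 ≤ n →
    rat n ^ A ≤ C * ∑ d ∈ n.divisors, (d : ℝ) ^ (-s) := by
  obtain ⟨P, hP⟩ := local_factor A s hs0 hs1
  refine ⟨(2 ^ A) ^ P, by positivity, fun n hn => ?_⟩
  have hn0 : (0 : ℝ) < n := by exact_mod_cast hn
  have h1 : (Nat.totient n : ℝ) = n * ∏ p ∈ n.primeFactors, (1 - (p : ℝ)⁻¹) := by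
    have := Nat.totient_eq_mul_prod_factors n
    have h2 : ((Nat.totient n : ℚ) : ℝ) = ((n * ∏ p ∈ n.primeFactors, (1 - (p : ℚ)⁻¹) : ℚ) : ℝ) := by
      rw [this]
    push_cast at h2
    exact h2
  have h2 : rat n = ∏ p ∈ n.primeFactors, ((1 : ℝ) - (p : ℝ)⁻¹)⁻¹ := by
    unfold rat
    rw [h1, ← div_div, div_self hn0.ne', one_div, Finset.prod_inv_distrib]
  rw [h2, ← Finset.prod_pow]
  calc ∏ p ∈ n.primeFactors, (((1 : ℝ) - (p : ℝ)⁻¹)⁻¹) ^ A
      ≤ ∏ p ∈ n.primeFactors, ((if p < P then (2 : ℝ) ^ A else 1) * (1 + (p : ℝ) ^ (-s))) := by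
        refine Finset.prod_le_prod (fun p hp => ?_) fun p hp => ?_
        · have h2 : (2 : ℝ) ≤ p := by exact_mod_cast (Nat.prime_of_mem_primeFactors hp).two_le
          have : (p : ℝ)⁻¹ ≤ 1 := inv_le_one_of_one_le₀ (by linarith)
          exact pow_nonneg (inv_nonneg.2 (by linarith)) A
        · exact hP p (Nat.prime_of_mem_primeFactors hp)
    _ = (∏ p ∈ n.primeFactors, (if p < P then (2 : ℝ) ^ A else 1)) *
        ∏ p ∈ n.primeFactors, (1 + (p : ℝ) ^ (-s)) := Finset.prod_mul_distrib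
    _ ≤ (2 ^ A) ^ P * ∑ d ∈ n.divisors, (d : ℝ) ^ (-s) := by
        refine mul_le_mul ?_ ?_ (Finset.prod_nonneg fun p _ => by positivity) (by positivity)
        · rw [Finset.prod_ite, Finset.prod_const, Finset.prod_const_one, mul_one]
          refine pow_le_pow_right₀ (one_le_pow₀ (by norm_num)) ?_
          have : (n.primeFactors.filter (fun p => p < P)) ⊆ Finset.range P := by
            intro p hp
            rw [Finset.mem_filter] at hp
            exact Finset.mem_range.2 hp.2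
          simpa using Finset.card_le_card this
        · rw [Finset.prod_one_add]
          have hprod : ∀ s' ∈ n.primeFactors.powerset,
              ∏ p ∈ s', (p : ℝ) ^ (-s) = ((∏ p ∈ s', p : ℕ) : ℝ) ^ (-s) := by
            intro s' _
            rw [Nat.cast_prod, Real.finsetProd_rpow s' (fun p => (p : ℝ)) (fun p _ => by positivity)]
          rw [Finset.sum_congr rfl hprod]
          have hinj : Set.InjOn (fun s : Finset ℕ => ∏ p ∈ s, p) (n.primeFactors.powerset : Set (Finset ℕ)) := by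
            intro s hs t ht hst
            simp only [Finset.coe_powerset, Set.mem_preimage, Set.mem_powerset_iff] at hs ht
            have h3 : (∏ p ∈ s, p).primeFactors = s := Nat.primeFactors_prod fun p hp =>
              Nat.prime_of_mem_primeFactors (hs hp)
            have h4 : (∏ p ∈ t, p).primeFactors = t := Nat.primeFactors_prod fun p hp =>
              Nat.prime_of_mem_primeFactors (ht hp)
            have h5 : ∏ p ∈ s, p = ∏ p ∈ t, p := hst
            rw [← h3, h5, h4]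
          rw [← Finset.sum_image (f := fun d : ℕ => (d : ℝ) ^ (-s)) hinj]
          refine Finset.sum_le_sum_of_subset_of_nonneg ?_ fun d _ _ => by positivity
          intro d hd
          rw [Finset.mem_image] at hd
          obtain ⟨s, hs, rfl⟩ := hd
          rw [Finset.mem_powerset] at hs
          rw [Nat.mem_divisors]
          exact ⟨(Finset.prod_dvd_prod_of_subset _ _ _ hs).trans (Nat.prod_primeFactors_dvd n), by omega⟩

lemma card_dvd_shift (d c H : ℕ) (hd : 1 ≤ d) : (#{w ∈ Icc 1 H | d ∣ w + c} : ℝ) ≤ H / d + 1 := by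
  have h1 : #{w ∈ Icc 1 H | d ∣ w + c} + c / d = (c + H) / d := by
    rw [← Nat.Ioc_filter_dvd_card_eq_div c d, ← Nat.Ioc_filter_dvd_card_eq_div (c + H) d]
    have h2 : (Ioc 0 (c + H)).filter (fun n => d ∣ n) =
        ((Icc 1 H).filter (fun w => d ∣ w + c)).image (fun w => w + c) ∪ (Ioc 0 c).filter (fun n => d ∣ n) := by
      ext n
      simp only [mem_filter, mem_Ioc, mem_union, mem_image, mem_Icc]
      constructor
      · rintro ⟨⟨h1, h2⟩, h3⟩
        by_cases h : n ≤ c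
        · exact Or.inr ⟨⟨h1, h⟩, h3⟩
        · left
          exact ⟨n - c, ⟨⟨by omega, by omega⟩, by rwa [Nat.sub_add_cancel (by omega)]⟩, by omega⟩
      · rintro (⟨w, ⟨⟨h1, h2⟩, h3⟩, rfl⟩ | ⟨⟨h1, h2⟩, h3⟩)
        · exact ⟨⟨by omega, by omega⟩, h3⟩
        · exact ⟨⟨h1, by omega⟩, h3⟩
    rw [h2, card_union_of_disjoint, card_image_of_injective _ (fun a b h => by simpa using h)]
    rw [disjoint_left]
    intro n hn hn2
    simp only [mem_filter, mem_Ioc, mem_image, mem_Icc] at hn hn2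
    obtain ⟨w, ⟨⟨h1, _⟩, _⟩, rfl⟩ := hn
    omega
  have hd0 : (0 : ℝ) < d := by exact_mod_cast hd
  have h2 : (((c + H) / d : ℕ) : ℝ) ≤ ((c + H : ℕ) : ℝ) / d := Nat.cast_div_le
  have h3 : (c : ℝ) / d < ((c / d : ℕ) : ℝ) + 1 := by
    rw [div_lt_iff₀ hd0]
    have := Nat.lt_mul_div_succ c hd
    have h4 : ((c : ℕ) : ℝ) < ((d * (c / d + 1) : ℕ) : ℝ) := by exact_mod_cast this
    push_cast at h4
    nlinarith
  have h4 : ((#{w ∈ Icc 1 H | d ∣ w + c} : ℕ) : ℝ) + ((c / d : ℕ) : ℝ) = (((c + H) / d : ℕ) : ℝ) := by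
    exact_mod_cast h1
  have h5 : ((c + H : ℕ) : ℝ) / d = c / d + H / d := by push_cast; ring
  rw [h5] at h2
  linarith

theorem rat_shift (A E : ℕ) : ∃ C : ℝ, 0 < C ∧ ∀ H c : ℕ, 1 ≤ H → c ≤ H ^ E →
    ∑ w ∈ Icc 1 H, rat (w + c) ^ A ≤ C * H := by
  set δ : ℝ := 1 / (2 * (E + 1)) with hδ
  have hE : (0 : ℝ) ≤ E := Nat.cast_nonneg E
  have hδ0 : 0 < δ := by positivity
  have hδ1 : δ ≤ 1 / 2 := by
    rw [hδ, div_le_div_iff₀ (by positivity) (by norm_num)]; nlinarith
  obtain ⟨C, hC, hrat⟩ := rat_le A (1 - δ) (by linarith) (by linarith)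
  have hs : Summable (fun d : ℕ => (d : ℝ) ^ (-(1 + δ))) :=
    Real.summable_nat_rpow.2 (by linarith)
  have hs2 : Summable (fun d : ℕ => (d : ℝ) ^ (-(2 - δ))) :=
    Real.summable_nat_rpow.2 (by linarith)
  refine ⟨C * ((∑' d : ℕ, (d : ℝ) ^ (-(2 - δ))) + 2 * (∑' d : ℕ, (d : ℝ) ^ (-(1 + δ)))), ?_, fun H c hH hc => ?_⟩
  · have : 0 < ∑' d : ℕ, (d : ℝ) ^ (-(1 + δ)) := hs.tsum_pos (fun d => by positivity) 1 (by simp)
    have h2 : 0 ≤ ∑' d : ℕ, (d : ℝ) ^ (-(2 - δ)) := tsum_nonneg (fun d => by positivity)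
    positivity
  have hH0 : (0 : ℝ) < H := by exact_mod_cast hH
  set M := c + H with hM
  calc ∑ w ∈ Icc 1 H, rat (w + c) ^ A ≤ ∑ w ∈ Icc 1 H, C * ∑ d ∈ (w + c).divisors, (d : ℝ) ^ (-(1 - δ)) :=
        sum_le_sum fun w hw => hrat _ (by have := (mem_Icc.1 hw).1; omega)
    _ = C * ∑ w ∈ Icc 1 H, ∑ d ∈ (w + c).divisors, (d : ℝ) ^ (-(1 - δ)) := by rw [mul_sum]
    _ = C * ∑ d ∈ Icc 1 M, ∑ w ∈ (Icc 1 H).filter (fun w => d ∣ w + c), (d : ℝ) ^ (-(1 - δ)) := by
        congr 1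
        refine sum_comm' ?_
        intro w d
        simp only [mem_Icc, Nat.mem_divisors, mem_filter]
        constructor
        · rintro ⟨⟨h1, h2⟩, h3, h4⟩
          have := Nat.le_of_dvd (by omega) h3
          exact ⟨⟨⟨h1, h2⟩, h3⟩, Nat.pos_of_dvd_of_pos h3 (by omega), by omega⟩
        · rintro ⟨⟨⟨h1, h2⟩, h3⟩, _⟩
          exact ⟨⟨h1, h2⟩, h3, by omega⟩
    _ ≤ C * ∑ d ∈ Icc 1 M, (H * (d : ℝ) ^ (-(2 - δ)) + (M : ℝ) ^ (2 * δ) * (d : ℝ) ^ (-(1 + δ))) := by
        apply mul_le_mul_of_nonneg_left _ hC.le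
        apply sum_le_sum
        intro d hd
        rw [mem_Icc] at hd
        have hd0 : (0 : ℝ) < d := by exact_mod_cast hd.1
        have hdM : (d : ℝ) ≤ M := by exact_mod_cast hd.2
        rw [sum_const, nsmul_eq_mul]
        calc _ ≤ ((H : ℝ) / d + 1) * (d : ℝ) ^ (-(1 - δ)) :=
              mul_le_mul_of_nonneg_right (card_dvd_shift d c H hd.1) (by positivity)
          _ = H * (d : ℝ) ^ (-(2 - δ)) + (d : ℝ) ^ (2 * δ) * (d : ℝ) ^ (-(1 + δ)) := by
              rw [← Real.rpow_add hd0]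
              have h1 : (d : ℝ) ^ (-(2 - δ)) = (d : ℝ) ^ (-(1 - δ)) / d := by
                rw [← Real.rpow_sub_one hd0.ne']; ring_nf
              rw [h1]
              have h2 : 2 * δ + -(1 + δ) = -(1 - δ) := by ring
              rw [h2]; ring
          _ ≤ _ := by
              have := Real.rpow_le_rpow hd0.le hdM (show (0 : ℝ) ≤ 2 * δ by positivity)
              have h3 : (0 : ℝ) ≤ (d : ℝ) ^ (-(1 + δ)) := by positivity
              nlinarith
    _ ≤ C * (H * (∑' d : ℕ, (d : ℝ) ^ (-(2 - δ))) + (2 * H) * (∑' d : ℕ, (d : ℝ) ^ (-(1 + δ)))) := by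
        apply mul_le_mul_of_nonneg_left _ hC.le
        rw [sum_add_distrib, ← mul_sum, ← mul_sum]
        have hMb : (M : ℝ) ^ (2 * δ) ≤ 2 * H := by
          have h1 : (M : ℝ) ≤ 2 * (H : ℝ) ^ (E + 1) := by
            have h2 : M ≤ 2 * H ^ (E + 1) := by
              have h3 : H ^ E ≤ H ^ (E + 1) := Nat.pow_le_pow_right hH (by omega)
              have h4 : H ≤ H ^ (E + 1) := Nat.le_self_pow (by omega) H
              omega
            exact_mod_cast h2
          calc (M : ℝ) ^ (2 * δ) ≤ ((2 * (H : ℝ)) ^ (E + 1)) ^ (2 * δ) := by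
                apply Real.rpow_le_rpow (Nat.cast_nonneg _) _ (by positivity)
                refine h1.trans ?_
                rw [mul_pow]
                apply mul_le_mul_of_nonneg_right _ (by positivity)
                exact le_self_pow₀ (by norm_num) (by omega)
            _ = 2 * H := by
                rw [← Real.rpow_natCast, ← Real.rpow_mul (by positivity)]
                have : ((E + 1 : ℕ) : ℝ) * (2 * δ) = 1 := by
                  rw [hδ]; push_cast; field_simp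
                rw [this, Real.rpow_one]
        apply add_le_add
        · exact mul_le_mul_of_nonneg_left (hs2.sum_le_tsum _ fun d _ => by positivity) hH0.le
        · exact mul_le_mul hMb (hs.sum_le_tsum _ fun d _ => by positivity)
            (sum_nonneg fun d _ => by positivity) (by positivity)
    _ = _ := by ring

end Pool.Agent.H373R2.BH
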