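import Mathlib
import Pool.Agent.H373R2.BH.Second

namespace Pool.Agent.H373R2.BH
open Finset
open Pool.Agent.H646 (rat)
open Pool.Agent.H646.TuplesM (rat_ge_one rat_nonneg tuple_bound)

/-- monotone with `n - m ∣ g n - g m` -/
def LD (g : ℕ → ℕ) : Prop := ∀ m n, m ≤ n → ∃ c, g n = g m + (n - m) * c

lemma LD.add {f g : ℕ → ℕ} (hf : LD f) (hg : LD g) : LD (fun n => f n + g n) := by
  intro m n h
  obtain ⟨a, ha⟩ := hf m n h
  obtain ⟨b, hb⟩ := hg m n h
  refine ⟨a + b, ?_⟩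
  simp only [ha, hb]; ring

lemma LD.const (c : ℕ) : LD (fun _ => c) := fun _ _ _ => ⟨0, by simp⟩

lemma LD.pow (j : ℕ) : LD (fun n => n ^ j) := by
  intro m n h
  obtain ⟨c, hc⟩ := Nat.sub_dvd_pow_sub_pow n m j
  refine ⟨c, ?_⟩
  have := Nat.pow_le_pow_left h j
  show n ^ j = m ^ j + (n - m) * c
  omega

lemma LD.mul {f g : ℕ → ℕ} (hf : LD f) (hg : LD g) : LD (fun n => f n * g n) := by
  intro m n h
  obtain ⟨a, ha⟩ := hf m n h
  obtain ⟨b, hb⟩ := hg m n h
  refine ⟨a * g n + f m * b, ?_⟩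
  simp only [ha, hb]; ring

lemma LD.const_mul {g : ℕ → ℕ} (c : ℕ) (hg : LD g) : LD (fun n => c * g n) := (LD.const c).mul hg

lemma LD.sum {ι : Type*} (s : Finset ι) (f : ι → ℕ → ℕ) (hf : ∀ i ∈ s, LD (f i)) :
    LD (fun n => ∑ i ∈ s, f i n) := by
  classical
  induction s using Finset.induction_on with
  | empty => simpa using LD.const 0
  | insert a s ha ih =>
    have h1 := (hf a (mem_insert_self _ _)).add (ih (fun i hi => hf i (mem_insert_of_mem hi)))
    intro m n h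
    obtain ⟨c, hc⟩ := h1 m n h
    refine ⟨c, ?_⟩
    simp only [sum_insert ha]
    exact hc

lemma LD.mono {g : ℕ → ℕ} (hg : LD g) {m n : ℕ} (h : m ≤ n) : g m ≤ g n := by
  obtain ⟨c, hc⟩ := hg m n h; omega

lemma LD_val {e : ℕ} (b : Fin (e + 1) → ℕ) : LD (fun n => val 0 b n) := by
  have : (fun n => val 0 b n) = fun n => 0 + ∑ j, b j * n ^ (j : ℕ) := rfl
  rw [this]
  exact (LD.const 0).add (LD.sum _ _ fun j _ => LD.const_mul _ (LD.pow _))

lemma rat_mul_le (a b : ℕ) (ha : 1 ≤ a) (hb : 1 ≤ b) : rat (a * b) ≤ rat a * rat b := by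
  unfold rat
  have h1 : a.totient * b.totient ≤ (a * b).totient := Nat.totient_super_multiplicative a b
  have h2 : 0 < a.totient := Nat.totient_pos.2 ha
  have h3 : 0 < b.totient := Nat.totient_pos.2 hb
  rw [div_mul_div_comm]
  push_cast
  apply div_le_div_of_nonneg_left (by positivity) (by positivity)
  exact_mod_cast h1

/-- pair sieve in a shifted window -/
theorem pair_window : ∃ C : ℝ, 0 < C ∧ ∃ A H₀ : ℕ, ∀ H : ℕ, H₀ ≤ H → ∀ β β' : ℕ, β' < β →
    (#{u ∈ Icc 1 H | (u + β').Prime ∧ (u + β).Prime} : ℝ) ≤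
      C * H / (Real.log H) ^ 2 * rat (β - β') ^ A := by
  obtain ⟨C, hC, A, x₀, h⟩ := tuple_bound 2 (by norm_num)
  refine ⟨C, hC, A, x₀, fun H hH β β' hlt => ?_⟩
  have h1 := h H hH ![β', β] (by
    intro i j hij
    fin_cases i <;> fin_cases j <;> simp_all)
  have h2 : ((univ : Finset (Fin 2 × Fin 2)).filter fun q => q.1 < q.2) = {(0, 1)} := by
    decide
  rw [h2, prod_singleton] at h1
  simpa [Fin.forall_fin_two] using h1

theorem single_window : ∃ C : ℝ, 0 < C ∧ ∃ H₀ : ℕ, ∀ H : ℕ, H₀ ≤ H → ∀ β : ℕ,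
    (#{u ∈ Icc 1 H | (u + β).Prime} : ℝ) ≤ C * H / Real.log H := by
  obtain ⟨C, hC, A, x₀, h⟩ := tuple_bound 1 (by norm_num)
  refine ⟨C, hC, x₀, fun H hH β => ?_⟩
  have h1 := h H hH (fun _ => β) (by
    intro i j hij
    exact absurd hij (by rw [Subsingleton.elim i j]; exact lt_irrefl _))
  have h2 : ((univ : Finset (Fin 1 × Fin 1)).filter fun q => q.1 < q.2) = ∅ := by
    decide
  rw [h2, prod_empty, mul_one, pow_one] at h1
  simpa using h1

/-- two free coefficients -/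
theorem pair_core (E : ℕ) : ∃ C : ℝ, 0 < C ∧ ∃ A H₀ : ℕ, ∀ H : ℕ, H₀ ≤ H → ∀ R : ℕ → ℕ, LD R →
    ∀ n n' : ℕ, n' < n → R n ≤ H ^ E →
    ∑ w ∈ Icc 1 H, (#{u ∈ Icc 1 H | (u + (n' * w + R n')).Prime ∧ (u + (n * w + R n)).Prime} : ℝ) ≤
      C * rat (n - n') ^ A * ((H : ℝ) ^ 2 / (Real.log H) ^ 2) := by
  obtain ⟨C, hC, A, H₀, h⟩ := pair_window
  obtain ⟨C', hC', h'⟩ := rat_shift A E
  refine ⟨C * C', by positivity, A, max H₀ 1, fun H hH R hR n n' hn hRn => ?_⟩
  have hH1 : 1 ≤ H := by omega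
  obtain ⟨c, hc⟩ := hR n' n hn.le
  have hcle : c ≤ H ^ E := by
    have : c ≤ (n - n') * c := Nat.le_mul_of_pos_left c (by omega)
    omega
  have hHpos : (0 : ℝ) < H := by exact_mod_cast hH1
  calc _ ≤ ∑ w ∈ Icc 1 H, C * H / (Real.log H) ^ 2 * (rat (n - n') ^ A * rat (w + c) ^ A) := by
        apply sum_le_sum
        intro w hw
        have hw1 := (mem_Icc.1 hw).1
        have hmul : n * w = n' * w + (n - n') * w := by
          have h0 : n = n' + (n - n') := by omega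
          calc n * w = (n' + (n - n')) * w := by rw [← h0]
            _ = _ := by ring
        have hpos : 0 < (n - n') * w := Nat.mul_pos (by omega) hw1
        have h1 := h H (by omega) (n * w + R n) (n' * w + R n') (by omega)
        refine h1.trans ?_
        apply mul_le_mul_of_nonneg_left _ (by positivity)
        have h2 : n * w + R n - (n' * w + R n') = (n - n') * (w + c) := by
          rw [Nat.mul_add]; omega
        rw [h2, ← mul_pow]
        exact pow_le_pow_left₀ (rat_nonneg _) (rat_mul_le _ _ (by omega) (by omega)) A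
    _ = C * H / (Real.log H) ^ 2 * rat (n - n') ^ A * ∑ w ∈ Icc 1 H, rat (w + c) ^ A := by
        rw [mul_sum]
        apply sum_congr rfl
        intro w _; ring
    _ ≤ C * H / (Real.log H) ^ 2 * rat (n - n') ^ A * (C' * H) := by
        apply mul_le_mul_of_nonneg_left (h' H c hH1 hcle)
        have := rat_nonneg (n - n')
        positivity
    _ = _ := by ring

/-- pair bound over one box -/
theorem pair_box (e G : ℕ) (he : 1 ≤ e) : ∃ C : ℝ, 0 < C ∧ ∃ A H₀ : ℕ, ∀ H : ℕ, H₀ ≤ H →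
    ∀ g : ℕ → ℕ, LD g → (∀ n, 1 ≤ n → g n ≤ G * n ^ (e + 1)) → ∀ n n' : ℕ, 1 ≤ n' → n' < n → n ≤ H →
    (#{b ∈ bx e H | (val (g n') b n').Prime ∧ (val (g n) b n).Prime} : ℝ) ≤
      C * rat (n - n') ^ A * ((H : ℝ) ^ (e + 1) / (Real.log H) ^ 2) := by
  obtain ⟨C, hC, A, H₀, h⟩ := pair_core (e + 2)
  refine ⟨C, hC, A, max H₀ (G + e + 1), fun H hH g hg hgG n n' hn' hn hnH => ?_⟩
  have hHG : G + e + 1 ≤ H := le_trans (le_max_right _ _) hH
  have hgn : g n ≤ G * H ^ (e + 1) := (hgG n (by omega)).trans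
    (Nat.mul_le_mul_left _ (Nat.pow_le_pow_left hnH _))
  have hcard : ∀ (P : (Fin (e + 1) → ℕ) → Prop) [DecidablePred P],
      (#{b ∈ bx e H | P b} : ℝ) = ∑ b ∈ bx e H, (if P b then (1 : ℝ) else 0) := by
    intro P _
    rw [card_filter]; push_cast; rfl
  rw [hcard]
  obtain ⟨e', rfl⟩ : ∃ e', e = e' + 1 := ⟨e - 1, by omega⟩
  rw [sum_bx_succ]
  cases e' with
  | zero =>
    rw [sum_bx_zero]
    have h1 := h H (le_trans (le_max_left _ _) hH) g hg n n' hn (by
      calc g n ≤ G * H ^ (0 + 1 + 1) := hgn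
        _ ≤ H * H ^ (0 + 1 + 1) := Nat.mul_le_mul_right _ (by omega)
        _ = _ := by ring)
    refine le_trans (le_of_eq ?_) h1
    apply sum_congr rfl
    intro w _
    rw [card_filter]; push_cast
    apply sum_congr rfl
    intro u _
    have h2 : ∀ m, val (g m) (Fin.cons u (fun _ => w) : Fin (0 + 1 + 1) → ℕ) m = u + (m * w + g m) := by
      intro m
      rw [val_cons, val_zero]; ring
    rw [h2, h2]
  | succ e'' =>
    rw [sum_bx_succ]
    have h3 : ∀ b ∈ bx e'' H, ∑ w ∈ Icc 1 H, ∑ u ∈ Icc 1 H,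
        (if (val (g n') (Fin.cons u (Fin.cons w b : Fin (e'' + 1 + 1) → ℕ) : Fin (e'' + 1 + 1 + 1) → ℕ) n').Prime ∧
          (val (g n) (Fin.cons u (Fin.cons w b : Fin (e'' + 1 + 1) → ℕ) : Fin (e'' + 1 + 1 + 1) → ℕ) n).Prime
          then (1 : ℝ) else 0) ≤ C * rat (n - n') ^ A * ((H : ℝ) ^ 2 / (Real.log H) ^ 2) := by
      intro b hb
      rw [mem_bx] at hb
      have hR : LD (fun m => g m + m ^ 2 * val 0 b m) := hg.add ((LD.pow 2).mul (LD_val b))
      have h1 := h H (le_trans (le_max_left _ _) hH) (fun m => g m + m ^ 2 * val 0 b m) hR n n' hn (by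
        have hval : val 0 b n ≤ (e'' + 1) * (H * H ^ e'') := by
          unfold val
          rw [zero_add]
          calc ∑ j, b j * n ^ (j : ℕ) ≤ ∑ _j : Fin (e'' + 1), H * H ^ e'' := by
                apply sum_le_sum
                intro j _
                apply Nat.mul_le_mul (hb j).2
                calc n ^ (j : ℕ) ≤ H ^ (j : ℕ) := Nat.pow_le_pow_left hnH _
                  _ ≤ H ^ e'' := Nat.pow_le_pow_right (by omega) (by have := j.2; omega)
            _ = _ := by simp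
        calc g n + n ^ 2 * val 0 b n ≤ G * H ^ (e'' + 1 + 1 + 1) + H ^ 2 * ((e'' + 1) * (H * H ^ e'')) :=
              Nat.add_le_add hgn (Nat.mul_le_mul (Nat.pow_le_pow_left hnH 2) hval)
          _ = (G + (e'' + 1)) * H ^ (e'' + 1 + 1 + 1) := by ring
          _ ≤ H * H ^ (e'' + 1 + 1 + 1) := Nat.mul_le_mul_right _ (by omega)
          _ = _ := by ring)
      refine le_trans (le_of_eq ?_) h1
      apply sum_congr rfl
      intro w _
      rw [card_filter]; push_cast
      apply sum_congr rfl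
      intro u _
      have h2 : ∀ m, val (g m) (Fin.cons u (Fin.cons w b : Fin (e'' + 1 + 1) → ℕ) : Fin (e'' + 1 + 1 + 1) → ℕ) m
          = u + (m * w + (g m + m ^ 2 * val 0 b m)) := by
        intro m
        rw [val_cons, val_cons]; ring
      rw [h2, h2]
    calc _ ≤ ∑ _b ∈ bx e'' H, C * rat (n - n') ^ A * ((H : ℝ) ^ 2 / (Real.log H) ^ 2) := sum_le_sum h3
      _ = _ := by
        rw [sum_const, card_bx, nsmul_eq_mul]
        push_cast
        ring

theorem single_box (e : ℕ) (he : 1 ≤ e) : ∃ C : ℝ, 0 < C ∧ ∃ H₀ : ℕ, ∀ H : ℕ, H₀ ≤ H →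
    ∀ (g n : ℕ), (#{b ∈ bx e H | (val g b n).Prime} : ℝ) ≤ C * ((H : ℝ) ^ (e + 1) / Real.log H) := by
  obtain ⟨C, hC, H₀, h⟩ := single_window
  refine ⟨C, hC, H₀, fun H hH g n => ?_⟩
  obtain ⟨e', rfl⟩ : ∃ e', e = e' + 1 := ⟨e - 1, by omega⟩
  rw [card_filter]
  push_cast
  rw [sum_bx_succ]
  calc _ ≤ ∑ b ∈ bx e' H, C * H / Real.log H := by
        apply sum_le_sum
        intro b _
        refine le_trans (le_of_eq ?_) (h H hH (g + n * val 0 b n))
        rw [card_filter]; push_cast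
        apply sum_congr rfl
        intro u _
        rw [val_cons]
        have : g + u + n * val 0 b n = u + (g + n * val 0 b n) := by ring
        rw [this]
    _ = _ := by
        rw [sum_const, card_bx, nsmul_eq_mul]
        push_cast
        ring

end Pool.Agent.H373R2.BH
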