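import Mathlib
import Pool.Agent.H373R2.BH.Pair

namespace Pool.Agent.H373R2.BH
open Finset
open Pool.Agent.H646 (rat)
open Pool.Agent.H646.TuplesM (rat_ge_one rat_nonneg tuple_bound)

/-- all coefficient arrays -/
def Bx {k : ℕ} (e : Fin k → ℕ) (H : ℕ) : Finset (∀ i, Fin (e i + 1) → ℕ) :=
  Fintype.piFinset (fun i => bx (e i) H)

/-- number of `n ≤ x` for which all values are prime -/
def cnt {k : ℕ} {e : Fin k → ℕ} (g : Fin k → ℕ → ℕ) (a : ∀ i, Fin (e i + 1) → ℕ) (x : ℕ) : ℕ :=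
  #{n ∈ Icc 1 x | ∀ i, (val (g i n) (a i) n).Prime}

/-- expected number (without the singular series) -/
noncomputable def mu {k : ℕ} (e : Fin k → ℕ) (H x : ℕ) : ℝ := x / ∏ i, Real.log (H * (x : ℝ) ^ (e i))

lemma card_Bx {k : ℕ} (e : Fin k → ℕ) (H : ℕ) : (#(Bx e H) : ℝ) = ∏ i, (H : ℝ) ^ (e i + 1) := by
  unfold Bx
  rw [Fintype.card_piFinset]
  push_cast
  apply prod_congr rfl
  intro i _
  rw [card_bx]; push_cast; rfl

lemma sum_Bx_prod {k : ℕ} (e : Fin k → ℕ) (H : ℕ) (F : ∀ i, (Fin (e i + 1) → ℕ) → ℝ) :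
    ∑ a ∈ Bx e H, ∏ i, F i (a i) = ∏ i, ∑ b ∈ bx (e i) H, F i b := by
  unfold Bx
  rw [prod_univ_sum]

lemma cnt_eq {k : ℕ} {e : Fin k → ℕ} (g : Fin k → ℕ → ℕ) (a : ∀ i, Fin (e i + 1) → ℕ) (x : ℕ) :
    (cnt g a x : ℝ) = ∑ n ∈ Icc 1 x, ∏ i, (if (val (g i n) (a i) n).Prime then (1 : ℝ) else 0) := by
  unfold cnt
  rw [card_filter]; push_cast
  apply sum_congr rfl
  intro n _
  rw [prod_ite_zero]
  simp

theorem first_moment {k : ℕ} (e : Fin k → ℕ) (G : ℕ) (ε : ℝ) (hε : 0 < ε) (hε1 : ε ≤ 1) :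
    ∃ K X₀ : ℕ, 1 ≤ K ∧ ∀ H x : ℕ, X₀ ≤ x → K * x ≤ H → ∀ g : Fin k → ℕ → ℕ,
      (∀ i n, 1 ≤ n → g i n ≤ G * n ^ (e i + 1)) →
      (1 - ε) * (mu e H x * #(Bx e H)) ≤ ∑ a ∈ Bx e H, (cnt g a x : ℝ) := by
  set ε' : ℝ := ε / (2 * (k + 1)) with hε'
  have hk0 : (0 : ℝ) ≤ k := Nat.cast_nonneg k
  have hε'0 : 0 < ε' := by positivity
  have hε'1 : ε' ≤ 1 := by
    rw [hε', div_le_one (by positivity)]; nlinarith
  have h1 := fun i => first_box (e i) G ε' hε'0 hε'1
  choose K n₀ H₀ hK hn₀ hbox using h1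
  obtain ⟨X₁, hX₁⟩ := exists_nat_gt (((∑ i, n₀ i : ℕ) : ℝ) / (ε / 2))
  refine ⟨1 + ∑ i, K i, X₁ + ∑ i, n₀ i + ∑ i, H₀ i + 2, by omega, fun H x hx hKx g hg => ?_⟩
  set N₀ := ∑ i, n₀ i with hN₀
  have hle : ∀ (f : Fin k → ℕ) i, f i ≤ ∑ i, f i := fun f i => single_le_sum (fun _ _ => Nat.zero_le _) (mem_univ i)
  have hxH : x ≤ H := by
    calc x ≤ (1 + ∑ i, K i) * x := Nat.le_mul_of_pos_left x (by omega)
      _ ≤ H := hKx
  have hx1 : 1 ≤ x := by omega
  have hxpos : (0 : ℝ) < x := by exact_mod_cast hx1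
  have hlogpos : ∀ i, 0 < Real.log (H * (x : ℝ) ^ (e i)) := by
    intro i
    apply Real.log_pos
    have h1 : (2 : ℝ) ≤ H := by exact_mod_cast (by omega : 2 ≤ H)
    have h2 : (1 : ℝ) ≤ (x : ℝ) ^ (e i) := one_le_pow₀ (by exact_mod_cast hx1)
    nlinarith
  have hswap : ∑ a ∈ Bx e H, (cnt g a x : ℝ) =
      ∑ n ∈ Icc 1 x, ∏ i, (#{b ∈ bx (e i) H | (val (g i n) b n).Prime} : ℝ) := by
    simp_rw [cnt_eq]
    rw [sum_comm]
    apply sum_congr rfl
    intro n _
    rw [sum_Bx_prod e H (fun i b => if (val (g i n) b n).Prime then (1 : ℝ) else 0)]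
    apply prod_congr rfl
    intro i _
    rw [card_filter]; push_cast; rfl
  rw [hswap]
  have hterm : ∀ n ∈ Icc (N₀ + 1) x, (1 - ε') ^ k * ∏ i, ((H : ℝ) ^ (e i + 1) / Real.log (H * (x : ℝ) ^ (e i))) ≤
      ∏ i, (#{b ∈ bx (e i) H | (val (g i n) b n).Prime} : ℝ) := by
    intro n hn
    rw [mem_Icc] at hn
    have h2 : (1 - ε') ^ k = ∏ _i : Fin k, (1 - ε') := by simp
    rw [h2, ← prod_mul_distrib]
    apply prod_le_prod
    · intro i _
      have := hlogpos i
      have : 0 ≤ 1 - ε' := by linarith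
      positivity
    · intro i _
      apply hbox i H n x (g i n)
      · have := hle H₀ i; omega
      · have := hle n₀ i; omega
      · exact hn.2
      · calc K i * x ≤ (1 + ∑ i, K i) * x := Nat.mul_le_mul_right x (by have := hle K i; omega)
          _ ≤ H := hKx
      · exact hg i n (by omega)
  have hprod0 : 0 ≤ ∏ i, ((H : ℝ) ^ (e i + 1) / Real.log (H * (x : ℝ) ^ (e i))) :=
    prod_nonneg (fun i _ => by have := hlogpos i; positivity)
  have hsum : (((x : ℝ) - N₀) * ((1 - ε') ^ k * ∏ i, ((H : ℝ) ^ (e i + 1) / Real.log (H * (x : ℝ) ^ (e i))))) ≤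
      ∑ n ∈ Icc 1 x, ∏ i, (#{b ∈ bx (e i) H | (val (g i n) b n).Prime} : ℝ) := by
    calc _ = ∑ n ∈ Icc (N₀ + 1) x, (1 - ε') ^ k * ∏ i, ((H : ℝ) ^ (e i + 1) / Real.log (H * (x : ℝ) ^ (e i))) := by
          rw [sum_const, Nat.card_Icc, nsmul_eq_mul]
          congr 1
          rw [Nat.cast_sub (by omega)]
          push_cast; ring
      _ ≤ ∑ n ∈ Icc (N₀ + 1) x, ∏ i, (#{b ∈ bx (e i) H | (val (g i n) b n).Prime} : ℝ) := sum_le_sum hterm
      _ ≤ _ := by
          apply sum_le_sum_of_subset_of_nonneg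
          · apply Icc_subset_Icc_left; omega
          · intro n _ _
            exact prod_nonneg (fun i _ => Nat.cast_nonneg _)
  refine le_trans ?_ hsum
  have hmu : mu e H x * #(Bx e H) = x * ∏ i, ((H : ℝ) ^ (e i + 1) / Real.log (H * (x : ℝ) ^ (e i))) := by
    rw [card_Bx, mu, prod_div_distrib]; ring
  rw [hmu]
  set PI := ∏ i, ((H : ℝ) ^ (e i + 1) / Real.log (H * (x : ℝ) ^ (e i)))
  have hb1 : 1 - ε / 2 ≤ (1 - ε') ^ k := by
    have h1 := one_add_mul_le_pow (a := -ε') (by linarith) k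
    have h3 : (1 + -ε') = 1 - ε' := by ring
    rw [h3] at h1
    have h2 : (k : ℝ) * ε' ≤ ε / 2 := by
      rw [hε']
      calc (k : ℝ) * (ε / (2 * (k + 1))) = (ε / 2) * (k / (k + 1)) := by field_simp
        _ ≤ (ε / 2) * 1 := by
          apply mul_le_mul_of_nonneg_left _ (by positivity)
          rw [div_le_one (by positivity)]; linarith
        _ = _ := by ring
    linarith
  have hb2 : (1 - ε / 2) * x ≤ (x : ℝ) - N₀ := by
    have h1 : (N₀ : ℝ) / (ε / 2) < X₁ := hX₁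
    rw [div_lt_iff₀ (by positivity)] at h1
    have h2 : (X₁ : ℝ) ≤ x := by exact_mod_cast (by omega : X₁ ≤ x)
    nlinarith
  calc (1 - ε) * (x * PI) ≤ ((1 - ε / 2) * (1 - ε / 2)) * (x * PI) := by
        apply mul_le_mul_of_nonneg_right _ (by positivity)
        nlinarith
    _ = ((1 - ε / 2) * x) * ((1 - ε / 2) * PI) := by ring
    _ ≤ ((x : ℝ) - N₀) * ((1 - ε') ^ k * PI) := by
        apply mul_le_mul hb2 (mul_le_mul_of_nonneg_right hb1 hprod0)
        · have : 0 ≤ 1 - ε / 2 := by linarith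
          positivity
        · have : 0 ≤ 1 - ε / 2 := by linarith
          nlinarith

theorem second_moment {k : ℕ} (e : Fin k → ℕ) (he : ∀ i, 1 ≤ e i) (G : ℕ) :
    ∃ C : ℝ, 0 < C ∧ ∃ H₀ : ℕ, ∀ H x : ℕ, H₀ ≤ H → x ≤ H → (Real.log H) ^ k ≤ x → ∀ g : Fin k → ℕ → ℕ,
      (∀ i, LD (g i)) → (∀ i n, 1 ≤ n → g i n ≤ G * n ^ (e i + 1)) →
      ∑ a ∈ Bx e H, (cnt g a x : ℝ) ^ 2 ≤ C * ((x : ℝ) ^ 2 / (Real.log H) ^ (2 * k) * #(Bx e H)) := by
  have h1 := fun i => pair_box (e i) G (he i)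
  choose C₁ hC₁ A H₁ hpair using h1
  have h2 := fun i => single_box (e i) (he i)
  choose C₂ hC₂ H₂ hsing using h2
  obtain ⟨C₃, hC₃, hmom⟩ := Pool.Agent.H646.MomentM.rat_moment (∑ i, A i)
  set D₁ := ∏ i, C₁ i with hD₁
  set D₂ := ∏ i, C₂ i with hD₂
  have hD₁0 : 0 < D₁ := prod_pos fun i _ => hC₁ i
  have hD₂0 : 0 < D₂ := prod_pos fun i _ => hC₂ i
  refine ⟨2 * D₁ * C₃ + D₂, by positivity, ∑ i, H₁ i + ∑ i, H₂ i + 3, fun H x hH hxH hlog g hg hgG => ?_⟩
  have hle : ∀ (f : Fin k → ℕ) i, f i ≤ ∑ i, f i := fun f i => single_le_sum (fun _ _ => Nat.zero_le _) (mem_univ i)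
  have hlogH : 0 < Real.log H := Real.log_pos (by
    have : (3 : ℝ) ≤ H := by exact_mod_cast (by omega : 3 ≤ H)
    linarith)
  have hx0 : (0 : ℝ) ≤ x := Nat.cast_nonneg x
  set N := (#(Bx e H) : ℝ) with hN
  have hN0 : 0 ≤ N := Nat.cast_nonneg _
  -- pairwise expansion
  let M : ℕ → ℕ → ℝ := fun n n' => ∏ i, (#{b ∈ bx (e i) H | (val (g i n') b n').Prime ∧ (val (g i n) b n).Prime} : ℝ)
  have hswap : ∑ a ∈ Bx e H, (cnt g a x : ℝ) ^ 2 = ∑ n ∈ Icc 1 x, ∑ n' ∈ Icc 1 x, M n n' := by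
    have h3 : ∀ a ∈ Bx e H, (cnt g a x : ℝ) ^ 2 = ∑ n ∈ Icc 1 x, ∑ n' ∈ Icc 1 x,
        ∏ i, (if (val (g i n') (a i) n').Prime ∧ (val (g i n) (a i) n).Prime then (1 : ℝ) else 0) := by
      intro a _
      rw [sq, cnt_eq, sum_mul_sum]
      apply sum_congr rfl; intro n _
      apply sum_congr rfl; intro n' _
      rw [← prod_mul_distrib]
      apply prod_congr rfl; intro i _
      by_cases h1 : (val (g i n) (a i) n).Prime <;> by_cases h2 : (val (g i n') (a i) n').Prime <;> simp [h1, h2]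
    rw [sum_congr rfl h3, sum_comm]
    apply sum_congr rfl; intro n _
    rw [sum_comm]
    apply sum_congr rfl; intro n' _
    rw [sum_Bx_prod e H (fun i b => if (val (g i n') b n').Prime ∧ (val (g i n) b n).Prime then (1 : ℝ) else 0)]
    apply prod_congr rfl
    intro i _
    rw [card_filter]; push_cast; rfl
  have hMsymm : ∀ n n', M n n' = M n' n := by
    intro n n'
    apply prod_congr rfl
    intro i _
    congr 2
    ext b
    simp only [mem_filter]
    tauto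
  have hMlt : ∀ n n', 1 ≤ n' → n' < n → n ≤ x → M n n' ≤ D₁ * rat (n - n') ^ (∑ i, A i) * (N / (Real.log H) ^ (2 * k)) := by
    intro n n' h1 h2 h3
    calc M n n' ≤ ∏ i, (C₁ i * rat (n - n') ^ (A i) * ((H : ℝ) ^ (e i + 1) / (Real.log H) ^ 2)) := by
          apply prod_le_prod
          · intro i _; exact Nat.cast_nonneg _
          · intro i _
            exact hpair i H (by have := hle H₁ i; omega) (g i) (hg i) (hgG i) n n' h1 h2 (by omega)
      _ = _ := by
          rw [prod_mul_distrib, prod_mul_distrib, prod_pow_eq_pow_sum, prod_div_distrib, hN, card_Bx]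
          congr 2
          rw [prod_const, card_univ, Fintype.card_fin, ← pow_mul]
  have hMdiag : ∀ n, M n n ≤ D₂ * (N / (Real.log H) ^ k) := by
    intro n
    calc M n n ≤ ∏ i, (C₂ i * ((H : ℝ) ^ (e i + 1) / Real.log H)) := by
          apply prod_le_prod
          · intro i _; exact Nat.cast_nonneg _
          · intro i _
            have := hsing i H (by have := hle H₂ i; omega) (g i n) n
            simpa only [and_self] using this
      _ = _ := by
          rw [prod_mul_distrib, prod_div_distrib, hN, card_Bx]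
          congr 2
          rw [prod_const, card_univ, Fintype.card_fin]
  rw [hswap]
  have hrow : ∀ n ∈ Icc 1 x, ∑ n' ∈ Icc 1 x, M n n' ≤
      D₂ * (N / (Real.log H) ^ k) + 2 * (D₁ * (C₃ * x) * (N / (Real.log H) ^ (2 * k))) := by
    intro n hn
    rw [mem_Icc] at hn
    have hsplit : Icc 1 x = {n} ∪ (Ico 1 n ∪ Ioc n x) := by
      ext m; simp only [mem_Icc, mem_union, mem_singleton, mem_Ico, mem_Ioc]; omega
    have hlow : ∑ n' ∈ Ico 1 n, M n n' ≤ D₁ * (C₃ * x) * (N / (Real.log H) ^ (2 * k)) := by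
      calc ∑ n' ∈ Ico 1 n, M n n' ≤ ∑ n' ∈ Ico 1 n, D₁ * rat (n - n') ^ (∑ i, A i) * (N / (Real.log H) ^ (2 * k)) := by
            apply sum_le_sum
            intro n' hn'
            rw [mem_Ico] at hn'
            exact hMlt n n' hn'.1 hn'.2 hn.2
        _ = D₁ * (∑ n' ∈ Ico 1 n, rat (n - n') ^ (∑ i, A i)) * (N / (Real.log H) ^ (2 * k)) := by
            rw [mul_sum, sum_mul]
        _ ≤ D₁ * (C₃ * x) * (N / (Real.log H) ^ (2 * k)) := by
            apply mul_le_mul_of_nonneg_right _ (by positivity)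
            apply mul_le_mul_of_nonneg_left _ hD₁0.le
            refine le_trans ?_ (hmom x)
            have : ∑ n' ∈ Ico 1 n, rat (n - n') ^ (∑ i, A i) = ∑ m ∈ Ico 1 n, rat m ^ (∑ i, A i) := by
              refine sum_nbij' (fun m => n - m) (fun m => n - m) ?_ ?_ ?_ ?_ ?_
              · intro m hm; rw [mem_Ico] at hm ⊢; omega
              · intro m hm; rw [mem_Ico] at hm ⊢; omega
              · intro m hm; rw [mem_Ico] at hm; show n - (n - m) = m; omega
              · intro m hm; rw [mem_Ico] at hm; show n - (n - m) = m; omega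
              · intro m hm; rfl
            rw [this]
            apply sum_le_sum_of_subset_of_nonneg
            · intro m hm; rw [mem_Ico] at hm; rw [mem_Icc]; omega
            · intro m _ _; exact pow_nonneg (rat_nonneg m) _
    have hhigh : ∑ n' ∈ Ioc n x, M n n' ≤ D₁ * (C₃ * x) * (N / (Real.log H) ^ (2 * k)) := by
      calc ∑ n' ∈ Ioc n x, M n n' ≤ ∑ n' ∈ Ioc n x, D₁ * rat (n' - n) ^ (∑ i, A i) * (N / (Real.log H) ^ (2 * k)) := by
            apply sum_le_sum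
            intro n' hn'
            rw [mem_Ioc] at hn'
            rw [hMsymm]
            exact hMlt n' n hn.1 hn'.1 hn'.2
        _ = D₁ * (∑ n' ∈ Ioc n x, rat (n' - n) ^ (∑ i, A i)) * (N / (Real.log H) ^ (2 * k)) := by
            rw [mul_sum, sum_mul]
        _ ≤ D₁ * (C₃ * x) * (N / (Real.log H) ^ (2 * k)) := by
            apply mul_le_mul_of_nonneg_right _ (by positivity)
            apply mul_le_mul_of_nonneg_left _ hD₁0.le
            refine le_trans ?_ (hmom x)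
            have : ∑ n' ∈ Ioc n x, rat (n' - n) ^ (∑ i, A i) = ∑ m ∈ Icc 1 (x - n), rat m ^ (∑ i, A i) := by
              refine sum_nbij' (fun m => m - n) (fun m => m + n) ?_ ?_ ?_ ?_ ?_
              · intro m hm; rw [mem_Ioc] at hm; rw [mem_Icc]; omega
              · intro m hm; rw [mem_Icc] at hm; rw [mem_Ioc]; omega
              · intro m hm; rw [mem_Ioc] at hm; show m - n + n = m; omega
              · intro m hm; show m + n - n = m; omega
              · intro m hm; rfl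
            rw [this]
            apply sum_le_sum_of_subset_of_nonneg
            · intro m hm; rw [mem_Icc] at hm ⊢; omega
            · intro m _ _; exact pow_nonneg (rat_nonneg m) _
    rw [hsplit, sum_union, sum_singleton, sum_union]
    · linarith [hMdiag n]
    · rw [disjoint_left]; intro m h1 h2
      rw [mem_Ico] at h1; rw [mem_Ioc] at h2; omega
    · rw [disjoint_left]; intro m h1 h2
      rw [mem_singleton] at h1; rw [mem_union, mem_Ico, mem_Ioc] at h2; omega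
  calc ∑ n ∈ Icc 1 x, ∑ n' ∈ Icc 1 x, M n n' ≤
      ∑ n ∈ Icc 1 x, (D₂ * (N / (Real.log H) ^ k) + 2 * (D₁ * (C₃ * x) * (N / (Real.log H) ^ (2 * k)))) :=
        sum_le_sum hrow
    _ = x * (D₂ * (N / (Real.log H) ^ k) + 2 * (D₁ * (C₃ * x) * (N / (Real.log H) ^ (2 * k)))) := by
        rw [sum_const, Nat.card_Icc, nsmul_eq_mul, Nat.add_sub_cancel]
    _ ≤ (2 * D₁ * C₃ + D₂) * ((x : ℝ) ^ 2 / (Real.log H) ^ (2 * k) * N) := by
        have h4 : (x : ℝ) / (Real.log H) ^ k ≤ (x : ℝ) ^ 2 / (Real.log H) ^ (2 * k) := by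
          rw [two_mul, pow_add, div_le_div_iff₀ (by positivity) (by positivity)]
          have : (Real.log H) ^ k * ((x : ℝ) * (Real.log H) ^ k) ≤ x * (x * (Real.log H) ^ k) :=
            mul_le_mul_of_nonneg_right hlog (by positivity)
          nlinarith
        have h5 : D₂ * N * (x / (Real.log H) ^ k) ≤ D₂ * N * ((x : ℝ) ^ 2 / (Real.log H) ^ (2 * k)) :=
          mul_le_mul_of_nonneg_left h4 (by positivity)
        calc _ = D₂ * N * (x / (Real.log H) ^ k) + 2 * D₁ * C₃ * ((x : ℝ) ^ 2 / (Real.log H) ^ (2 * k) * N) := by ring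
          _ ≤ _ := by linarith

end Pool.Agent.H373R2.BH
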