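import Mathlib
import Pool.Agent.H373R2.BH.Moments

namespace Pool.Agent.H373R2.BH
open Finset

/-- chinese remainder counting -/
lemma crt_count (s : Finset ℕ) (hs : ∀ p ∈ s, p.Prime) (Q : ℕ → ℕ → Prop) [∀ p, DecidablePred (Q p)] :
    #{r ∈ range (∏ p ∈ s, p) | ∀ p ∈ s, Q p (r % p)} = ∏ p ∈ s, #{r ∈ range p | Q p r} := by
  classical
  induction s using Finset.induction_on with
  | empty => simp
  | insert p s hp ih =>
    have hpp := hs p (mem_insert_self _ _)
    have hs' : ∀ q ∈ s, q.Prime := fun q hq => hs q (mem_insert_of_mem hq)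
    rw [prod_insert hp, prod_insert hp, ← ih hs']
    set N := ∏ q ∈ s, q with hN
    have hNpos : 0 < N := prod_pos (fun q hq => (hs' q hq).pos)
    have hcop : Nat.Coprime p N := by
      rw [hN]
      exact Nat.Coprime.prod_right fun q hq => (Nat.coprime_primes hpp (hs' q hq)).2 (by
        rintro rfl; exact hp hq)
    have hinj : Set.InjOn (fun r => (r % p, r % N)) (range (p * N) : Set ℕ) := by
      intro a ha b hb hab
      simp only [coe_range, Set.mem_Iio] at ha hb
      simp only [Prod.mk.injEq] at hab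
      have h1 : a ≡ b [MOD p * N] := (Nat.modEq_and_modEq_iff_modEq_mul hcop).1 ⟨hab.1, hab.2⟩
      exact Nat.ModEq.eq_of_lt_of_lt h1 ha hb
    have himg : (range (p * N)).image (fun r => (r % p, r % N)) = range p ×ˢ range N := by
      apply eq_of_subset_of_card_le
      · intro x hx
        rw [mem_image] at hx
        obtain ⟨r, _, rfl⟩ := hx
        rw [mem_product, mem_range, mem_range]
        exact ⟨Nat.mod_lt _ hpp.pos, Nat.mod_lt _ hNpos⟩
      · rw [card_image_of_injOn hinj]; simp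
    rw [← card_product]
    have h2 : ({r ∈ range p | Q p r} ×ˢ {r ∈ range N | ∀ q ∈ s, Q q (r % q)}) =
        ((range (p * N)).filter (fun r => ∀ q ∈ insert p s, Q q (r % q))).image (fun r => (r % p, r % N)) := by
      ext x
      simp only [mem_product, mem_filter, mem_image, mem_range]
      constructor
      · rintro ⟨⟨h1, h2⟩, h3, h4⟩
        have hx : x ∈ range p ×ˢ range N := by rw [mem_product, mem_range, mem_range]; exact ⟨h1, h3⟩
        rw [← himg, mem_image] at hx
        obtain ⟨r, hr, rfl⟩ := hx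
        refine ⟨r, ⟨mem_range.1 hr, ?_⟩, rfl⟩
        intro q hq
        rcases mem_insert.1 hq with rfl | hq
        · exact h2
        · have := h4 q hq
          rwa [Nat.mod_mod_of_dvd _ (dvd_prod_of_mem _ hq)] at this
      · rintro ⟨r, ⟨h1, h2⟩, rfl⟩
        refine ⟨⟨Nat.mod_lt _ hpp.pos, h2 p (mem_insert_self _ _)⟩, Nat.mod_lt _ hNpos, ?_⟩
        intro q hq
        rw [Nat.mod_mod_of_dvd _ (dvd_prod_of_mem _ hq)]
        exact h2 q (mem_insert_of_mem hq)
    rw [h2, card_image_of_injOn]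
    intro a ha b hb hab
    exact hinj (by simpa using (mem_filter.1 ha).1) (by simpa using (mem_filter.1 hb).1) hab

/-- periodic counting -/
lemma count_periodic (m : ℕ) (hm : 0 < m) (Q : ℕ → Prop) [DecidablePred Q] (hQ : Function.Periodic Q m) (H : ℕ) :
    #{u ∈ Icc 1 H | Q u} ≤ (H / m + 1) * #{u ∈ range m | Q u} := by
  have h1 : ∀ t, #{u ∈ Ico 1 (1 + t * m) | Q u} = t * #{u ∈ range m | Q u} := by
    intro t
    induction t with
    | zero => simp
    | succ t ih =>
      have h2 : Ico 1 (1 + (t + 1) * m) = Ico 1 (1 + t * m) ∪ Ico (1 + t * m) (1 + t * m + m) := by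
        rw [Ico_union_Ico_eq_Ico (by omega) (by omega)]
        congr 1; ring
      rw [h2, filter_union, card_union_of_disjoint, ih, Nat.filter_Ico_card_eq_of_periodic _ _ _ hQ,
        Nat.count_eq_card_filter_range]
      · ring
      · exact disjoint_filter_filter (Ico_disjoint_Ico_consecutive _ _ _)
  have h3 : Icc 1 H ⊆ Ico 1 (1 + (H / m + 1) * m) := by
    intro u hu
    rw [mem_Icc] at hu
    rw [mem_Ico]
    have := Nat.lt_mul_div_succ H hm
    have h4 : (H / m + 1) * m = m * (H / m + 1) := by ring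
    omega
  calc #{u ∈ Icc 1 H | Q u} ≤ #{u ∈ Ico 1 (1 + (H / m + 1) * m) | Q u} := card_le_card (filter_subset_filter _ h3)
    _ = _ := h1 _

lemma count_residue (p c : ℕ) (hp : 0 < p) : #{u ∈ range p | p ∣ u + c} = 1 := by
  rw [card_eq_one]
  refine ⟨(p - c % p) % p, ?_⟩
  ext u
  simp only [mem_filter, mem_range, mem_singleton]
  constructor
  · rintro ⟨h1, h2⟩
    have h3 : c % p < p := Nat.mod_lt _ hp
    have h4 : p ∣ u + c % p := by
      have := (Nat.dvd_iff_mod_eq_zero.1 h2)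
      rw [Nat.dvd_iff_mod_eq_zero, Nat.add_mod, Nat.mod_mod, ← Nat.add_mod]; exact this
    obtain ⟨t, ht⟩ := h4
    rcases Nat.eq_zero_or_pos (c % p) with h0 | h0
    · rw [h0, Nat.sub_zero, Nat.mod_self]
      rw [h0, add_zero] at ht
      have : t = 0 := by
        by_contra h
        have : p * 1 ≤ p * t := Nat.mul_le_mul_left p (Nat.one_le_iff_ne_zero.2 h)
        omega
      rw [this] at ht; simpa using ht
    · rw [Nat.mod_eq_of_lt (by omega)]
      have h5 : t = 1 := by
        have : t ≠ 0 := by rintro rfl; omega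
        have : t < 2 := by
          by_contra h
          push Not at h
          have : p * 2 ≤ p * t := Nat.mul_le_mul_left p h
          omega
        omega
      rw [h5] at ht; omega
  · rintro rfl
    refine ⟨Nat.mod_lt _ hp, ?_⟩
    rw [Nat.dvd_iff_mod_eq_zero, Nat.add_mod, Nat.mod_mod, ← Nat.add_mod]
    have h3 : c % p < p := Nat.mod_lt _ hp
    have h6 : p - c % p + c = p * (1 + c / p) := by
      have := Nat.div_add_mod c p
      have h7 : p * (1 + c / p) = p + p * (c / p) := by ring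
      omega
    rw [h6]; exact Nat.mul_mod_right _ _

lemma count_nonresidue (p c : ℕ) (hp : 0 < p) : #{u ∈ range p | ¬ p ∣ u + c} = p - 1 := by
  have h := card_filter_add_card_filter_not (s := range p) (fun u => p ∣ u + c)
  rw [count_residue p c hp, card_range] at h
  omega

lemma per_dvd (p m c : ℕ) (h : p ∣ m) : Function.Periodic (fun u => p ∣ u + c) m := by
  intro u
  show (p ∣ u + m + c) = (p ∣ u + c)
  rw [show u + m + c = m + (u + c) by ring]
  exact propext (Nat.dvd_add_right h)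

/-- lower bound for the number of `u` avoiding one class -/
lemma window_one_low (p c H : ℕ) (hp : 2 ≤ p) (hH : 1 ≤ H) :
    (1 - 1 / (p : ℝ)) * (1 - 2 / (H : ℝ)) * H ≤ (#{u ∈ Icc 1 H | ¬ p ∣ u + c} : ℝ) := by
  have h := card_filter_add_card_filter_not (s := Icc 1 H) (fun u => p ∣ u + c)
  rw [Nat.card_Icc, Nat.add_sub_cancel] at h
  have h1 := card_dvd_shift p c H (by omega)
  have h2 : ((#{u ∈ Icc 1 H | p ∣ u + c} : ℕ) : ℝ) + (#{u ∈ Icc 1 H | ¬ p ∣ u + c} : ℕ) = H := by exact_mod_cast h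
  have hp2 : (2 : ℝ) ≤ p := by exact_mod_cast hp
  have hHpos : (0 : ℝ) < H := by exact_mod_cast hH
  have h3 : 1 / (p : ℝ) ≤ 1 / 2 := one_div_le_one_div_of_le (by norm_num) hp2
  have h4 : (1 - 1 / (p : ℝ)) * (1 - 2 / (H : ℝ)) * H = (1 - 1 / (p : ℝ)) * (H - 2) := by
    field_simp
  rw [h4]
  have h5 : (H : ℝ) / p = 1 / p * H := by ring
  rw [h5] at h1
  nlinarith

lemma window_two_up (p q c c' H : ℕ) (hp : p.Prime) (hq : q.Prime) (hpq : p ≠ q) (hH : 1 ≤ H) :
    (#{u ∈ Icc 1 H | ¬ p ∣ u + c ∧ ¬ q ∣ u + c'} : ℝ) ≤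
      (1 - 1 / (p : ℝ)) * (1 - 1 / (q : ℝ)) * (1 + p * q / H) * H := by
  have hm : 0 < p * q := Nat.mul_pos hp.pos hq.pos
  have h1 := count_periodic (p * q) hm (fun u => ¬ p ∣ u + c ∧ ¬ q ∣ u + c') (by
    intro u
    have h1 := per_dvd p (p * q) c (dvd_mul_right _ _) u
    have h2 := per_dvd q (p * q) c' (dvd_mul_left _ _) u
    simp only at h1 h2 ⊢
    rw [h1, h2]) H
  have h2 := crt_count {p, q} (by
    intro r hr
    rcases mem_insert.1 hr with rfl | hr
    · exact hp
    · rw [mem_singleton.1 hr]; exact hq) (fun r u => if r = p then ¬ p ∣ u + c else ¬ q ∣ u + c')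
  rw [prod_pair hpq, prod_pair hpq] at h2
  have h3 : #{u ∈ range (p * q) | ¬ p ∣ u + c ∧ ¬ q ∣ u + c'} = (p - 1) * (q - 1) := by
    rw [← count_nonresidue p c hp.pos, ← count_nonresidue q c' hq.pos]
    refine Eq.trans ?_ (h2.trans ?_)
    · congr 1
      apply filter_congr
      intro u _
      have e1 : ∀ r c, (r ∣ u % r + c) ↔ (r ∣ u + c) := by
        intro r c
        rw [Nat.dvd_iff_mod_eq_zero, Nat.dvd_iff_mod_eq_zero, Nat.add_mod, Nat.mod_mod, ← Nat.add_mod]
      simp only [mem_insert, mem_singleton, forall_eq_or_imp, forall_eq, if_true, if_neg hpq.symm, e1]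
    · simp only [if_true, if_neg hpq.symm]
  rw [h3] at h1
  have h4 : ((#{u ∈ Icc 1 H | ¬ p ∣ u + c ∧ ¬ q ∣ u + c'} : ℕ) : ℝ) ≤
      (((H / (p * q) : ℕ) : ℝ) + 1) * (((p : ℝ) - 1) * ((q : ℝ) - 1)) := by
    have h5 : (((H / (p * q) + 1) * ((p - 1) * (q - 1)) : ℕ) : ℝ) =
        (((H / (p * q) : ℕ) : ℝ) + 1) * (((p : ℝ) - 1) * ((q : ℝ) - 1)) := by
      rw [Nat.cast_mul, Nat.cast_mul, Nat.cast_sub hp.one_lt.le, Nat.cast_sub hq.one_lt.le]; push_cast; ring
    rw [← h5]; exact_mod_cast h1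
  refine h4.trans ?_
  have hp0 : (1 : ℝ) < p := by exact_mod_cast hp.one_lt
  have hq0 : (1 : ℝ) < q := by exact_mod_cast hq.one_lt
  have hHpos : (0 : ℝ) < H := by exact_mod_cast hH
  have h6 : ((H / (p * q) : ℕ) : ℝ) ≤ H / (p * q) := by
    have := @Nat.cast_div_le ℝ _ _ _ H (p * q)
    push_cast at this; exact this
  calc _ ≤ ((H : ℝ) / (p * q) + 1) * (((p : ℝ) - 1) * ((q : ℝ) - 1)) := by
        apply mul_le_mul_of_nonneg_right (by linarith)
        have := sub_pos.2 hp0
        have := sub_pos.2 hq0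
        positivity
    _ = _ := by field_simp

lemma window_one_up (p c H : ℕ) (hp : 2 ≤ p) (hH : 1 ≤ H) :
    (#{u ∈ Icc 1 H | ¬ p ∣ u + c} : ℝ) ≤ (1 - 1 / (p : ℝ)) * (1 + p / H) * H := by
  have h1 := count_periodic p (by omega) (fun u => ¬ p ∣ u + c) (by
    intro u
    have h1 := per_dvd p p c dvd_rfl u
    simp only at h1 ⊢
    rw [h1]) H
  rw [count_nonresidue p c (by omega)] at h1
  have h4 : ((#{u ∈ Icc 1 H | ¬ p ∣ u + c} : ℕ) : ℝ) ≤ (((H / p : ℕ) : ℝ) + 1) * ((p : ℝ) - 1) := by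
    have h5 : (((H / p + 1) * (p - 1) : ℕ) : ℝ) = (((H / p : ℕ) : ℝ) + 1) * ((p : ℝ) - 1) := by
      rw [Nat.cast_mul, Nat.cast_sub (by omega)]; push_cast; ring
    rw [← h5]; exact_mod_cast h1
  refine h4.trans ?_
  have hp0 : (1 : ℝ) < p := by exact_mod_cast (by omega : 1 < p)
  have hHpos : (0 : ℝ) < H := by exact_mod_cast hH
  have h6 : ((H / p : ℕ) : ℝ) ≤ H / p := Nat.cast_div_le
  calc _ ≤ ((H : ℝ) / p + 1) * ((p : ℝ) - 1) := by
        apply mul_le_mul_of_nonneg_right (by linarith) (by linarith)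
    _ = _ := by field_simp

/-- two linear conditions with different slopes -/
lemma window_plane (p r s c c' H : ℕ) (hp : p.Prime) (hr : r < p) (hs : s < p) (hrs : r ≠ s) (hH : 1 ≤ H) :
    ∑ w ∈ Icc 1 H, (#{u ∈ Icc 1 H | ¬ p ∣ u + (r * w + c) ∧ ¬ p ∣ u + (s * w + c')} : ℝ) ≤
      ((1 - 1 / (p : ℝ)) * (1 + p / H) * H) ^ 2 := by
  have hppos := hp.pos
  -- reduce to complete systems
  set κ : ℕ → ℕ := fun w => #{u ∈ range p | ¬ p ∣ u + (r * w + c) ∧ ¬ p ∣ u + (s * w + c')} with hκ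
  have h1 : ∀ w, #{u ∈ Icc 1 H | ¬ p ∣ u + (r * w + c) ∧ ¬ p ∣ u + (s * w + c')} ≤ (H / p + 1) * κ w := by
    intro w
    apply count_periodic p hppos
    intro u
    have h1 := per_dvd p p (r * w + c) dvd_rfl u
    have h2 := per_dvd p p (s * w + c') dvd_rfl u
    simp only at h1 h2 ⊢
    rw [h1, h2]
  have hκper : ∀ w, κ (w + p) = κ w := by
    intro w
    simp only [hκ]
    congr 1
    apply filter_congr
    intro u _
    have e1 : ∀ t d, p ∣ u + (t * (w + p) + d) ↔ p ∣ u + (t * w + d) := by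
      intro t d
      rw [show u + (t * (w + p) + d) = p * t + (u + (t * w + d)) by ring]
      exact Nat.dvd_add_right (dvd_mul_right _ _)
    rw [e1, e1]
  -- sum over a window of a periodic function
  have h2 : ∀ t, ∑ w ∈ Ico 1 (1 + t * p), κ w = t * ∑ w ∈ range p, κ w := by
    have hblock : ∀ a, ∑ w ∈ Ico a (a + p), κ w = ∑ w ∈ range p, κ w := by
      intro a
      induction a with
      | zero => rw [zero_add, range_eq_Ico]
      | succ a ih =>
        rw [← ih, show a + 1 + p = (a + p) + 1 by ring]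
        have e1 : ∑ w ∈ Ico (a + 1) (a + p + 1), κ w + κ a = ∑ w ∈ Ico a (a + p), κ w + κ (a + p) := by
          rw [← sum_Ico_succ_top (by omega), sum_eq_sum_Ico_succ_bot (by omega : a < a + p + 1)]
          ring
        rw [hκper] at e1
        omega
    intro t
    induction t with
    | zero => simp
    | succ t ih =>
      have h3 : 1 + (t + 1) * p = (1 + t * p) + p := by ring
      rw [h3, ← sum_Ico_consecutive _ (by omega : 1 ≤ 1 + t * p) (by omega), ih, hblock]
      ring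
  have h3 : ∑ w ∈ Icc 1 H, κ w ≤ (H / p + 1) * ∑ w ∈ range p, κ w := by
    rw [← h2]
    apply sum_le_sum_of_subset
    intro u hu
    rw [mem_Icc] at hu
    rw [mem_Ico]
    have := Nat.lt_mul_div_succ H hppos
    have h4 : (H / p + 1) * p = p * (H / p + 1) := by ring
    omega
  -- complete sum
  have h4 : ∑ w ∈ range p, κ w ≤ (p - 1) ^ 2 := by
    have h5 : ∀ w, κ w + 2 ≤ p + #{u ∈ range p | p ∣ u + (r * w + c) ∧ p ∣ u + (s * w + c')} := by
      intro w
      have e1 := card_filter_add_card_filter_not (s := range p)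
        (fun u => p ∣ u + (r * w + c) ∨ p ∣ u + (s * w + c'))
      rw [filter_or, card_range] at e1
      have e2 := card_union_add_card_inter ((range p).filter (fun u => p ∣ u + (r * w + c)))
        ((range p).filter (fun u => p ∣ u + (s * w + c')))
      rw [count_residue p _ hppos, count_residue p _ hppos, ← filter_and] at e2
      have e3 : (range p).filter (fun u => ¬ (p ∣ u + (r * w + c) ∨ p ∣ u + (s * w + c'))) =
          (range p).filter (fun u => ¬ p ∣ u + (r * w + c) ∧ ¬ p ∣ u + (s * w + c')) := by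
        apply filter_congr; intro u _; tauto
      rw [e3] at e1
      simp only [hκ]
      omega
    have h6 : ∑ w ∈ range p, #{u ∈ range p | p ∣ u + (r * w + c) ∧ p ∣ u + (s * w + c')} ≤ 1 := by
      rw [← card_sigma, card_le_one]
      intro x hx y hy
      simp only [mem_sigma, mem_range, mem_filter] at hx hy
      obtain ⟨w, u⟩ := x
      obtain ⟨w', u'⟩ := y
      obtain ⟨hw, hu, hx1, hx2⟩ := hx
      obtain ⟨hw', hu', hy1, hy2⟩ := hy
      simp only at hw hu hx1 hx2 hw' hu' hy1 hy2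
      have z1 : (p : ℤ) ∣ (u : ℤ) + (r * w + c) := by exact_mod_cast hx1
      have z2 : (p : ℤ) ∣ (u : ℤ) + (s * w + c') := by exact_mod_cast hx2
      have z3 : (p : ℤ) ∣ (u' : ℤ) + (r * w' + c) := by exact_mod_cast hy1
      have z4 : (p : ℤ) ∣ (u' : ℤ) + (s * w' + c') := by exact_mod_cast hy2
      have z5 : (p : ℤ) ∣ ((r : ℤ) - s) * ((w : ℤ) - w') := by
        have h := dvd_sub (dvd_sub z1 z2) (dvd_sub z3 z4)
        have e : ((u : ℤ) + (r * w + c) - (u + (s * w + c'))) - ((u' + (r * w' + c)) - (u' + (s * w' + c'))) =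
            ((r : ℤ) - s) * ((w : ℤ) - w') := by ring
        rwa [e] at h
      have hpz : Prime (p : ℤ) := Nat.prime_iff_prime_int.1 hp
      have small : ∀ a b : ℕ, a < p → b < p → (p : ℤ) ∣ (a : ℤ) - b → a = b := by
        intro a b ha hb hd
        have h1 : (a : ℤ) ≡ b [ZMOD p] := (Int.modEq_iff_dvd.2 (by rw [← neg_sub]; exact (dvd_neg.2 hd)))
        have h2 : a ≡ b [MOD p] := (Int.natCast_modEq_iff).1 h1
        exact Nat.ModEq.eq_of_lt_of_lt h2 ha hb
      have hw_eq : w = w' := by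
        rcases hpz.dvd_or_dvd z5 with h | h
        · exact absurd (small r s hr hs h) hrs
        · exact small w w' hw hw' h
      subst hw_eq
      have hu_eq : u = u' := by
        apply small u u' hu hu'
        have h := dvd_sub z1 z3
        have e : ((u : ℤ) + (r * w + c)) - (u' + (r * w + c)) = (u : ℤ) - u' := by ring
        rwa [e] at h
      subst hu_eq
      rfl
    have h7 : ∑ w ∈ range p, (κ w + 2) ≤ p * p + 1 := by
      calc ∑ w ∈ range p, (κ w + 2) ≤ ∑ w ∈ range p, (p + #{u ∈ range p | p ∣ u + (r * w + c) ∧ p ∣ u + (s * w + c')}) :=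
            sum_le_sum fun w _ => h5 w
        _ = p * p + ∑ w ∈ range p, #{u ∈ range p | p ∣ u + (r * w + c) ∧ p ∣ u + (s * w + c')} := by
            rw [sum_add_distrib, sum_const, card_range, smul_eq_mul]
        _ ≤ _ := by omega
    rw [sum_add_distrib, sum_const, card_range, smul_eq_mul] at h7
    obtain ⟨p', rfl⟩ : ∃ p', p = p' + 1 := ⟨p - 1, by omega⟩
    have : (p' + 1 - 1) ^ 2 = p' * p' := by rw [Nat.add_sub_cancel]; ring
    rw [this]
    nlinarith
  have hp0 : (1 : ℝ) < p := by exact_mod_cast hp.one_lt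
  have hHpos : (0 : ℝ) < H := by exact_mod_cast hH
  have h8 : ∑ w ∈ Icc 1 H, #{u ∈ Icc 1 H | ¬ p ∣ u + (r * w + c) ∧ ¬ p ∣ u + (s * w + c')} ≤
      (H / p + 1) * ((H / p + 1) * (p - 1) ^ 2) := by
    calc _ ≤ ∑ w ∈ Icc 1 H, (H / p + 1) * κ w := sum_le_sum fun w _ => h1 w
      _ = (H / p + 1) * ∑ w ∈ Icc 1 H, κ w := by rw [mul_sum]
      _ ≤ (H / p + 1) * ((H / p + 1) * ∑ w ∈ range p, κ w) := Nat.mul_le_mul_left _ h3
      _ ≤ _ := Nat.mul_le_mul_left _ (Nat.mul_le_mul_left _ h4)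
  have h9 : ((∑ w ∈ Icc 1 H, #{u ∈ Icc 1 H | ¬ p ∣ u + (r * w + c) ∧ ¬ p ∣ u + (s * w + c')} : ℕ) : ℝ) ≤
      ((((H / p : ℕ) : ℝ) + 1) * ((p : ℝ) - 1)) ^ 2 := by
    have h5 : (((H / p + 1) * ((H / p + 1) * (p - 1) ^ 2) : ℕ) : ℝ) = ((((H / p : ℕ) : ℝ) + 1) * ((p : ℝ) - 1)) ^ 2 := by
      rw [Nat.cast_mul, Nat.cast_mul, Nat.cast_pow, Nat.cast_sub hp.one_lt.le]; push_cast; ring
    rw [← h5]; exact_mod_cast h8
  push_cast at h9
  refine h9.trans ?_
  have h6 : ((H / p : ℕ) : ℝ) ≤ H / p := Nat.cast_div_le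
  apply pow_le_pow_left₀
  · have : (0 : ℝ) ≤ ((H / p : ℕ) : ℝ) := Nat.cast_nonneg _
    have := sub_pos.2 hp0
    positivity
  calc _ ≤ ((H : ℝ) / p + 1) * ((p : ℝ) - 1) := by
        apply mul_le_mul_of_nonneg_right (by linarith) (by linarith)
    _ = _ := by field_simp

end Pool.Agent.H373R2.BH
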