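import Mathlib
import Pool.Agent.H373R2.BH.Local

namespace Pool.Agent.H373R2.BH
open Finset

section box
variable {e : ℕ}

lemma card_filter_real {α : Type*} (s : Finset α) (P : α → Prop) [DecidablePred P] :
    (#{b ∈ s | P b} : ℝ) = ∑ b ∈ s, (if P b then (1 : ℝ) else 0) := by
  rw [card_filter]; push_cast; rfl

/-- write the count over a box as a sum over the last coordinates of window counts -/
lemma box_head (he : 1 ≤ e) (H : ℕ) (P : ℕ → ℕ → Prop) [∀ r, DecidablePred (P r)] (g : ℕ → ℕ) (S : Finset ℕ) :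
    (#{b ∈ bx e H | ∀ r ∈ S, P r (val (g r) b r)} : ℝ) =
      ∑ b ∈ bx (e - 1) H, (#{u ∈ Icc 1 H | ∀ r ∈ S, P r (u + (g r + r * val 0 b r))} : ℝ) := by
  obtain ⟨e', rfl⟩ : ∃ e', e = e' + 1 := ⟨e - 1, by omega⟩
  rw [card_filter_real, sum_bx_succ]
  apply sum_congr (by simp)
  intro b _
  rw [card_filter_real]
  apply sum_congr rfl
  intro u _
  have : ∀ r, val (g r) (Fin.cons u b : Fin (e' + 1 + 1) → ℕ) r = u + (g r + r * val 0 b r) := by
    intro r; rw [val_cons]; ring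
  simp only [this]

lemma box_one_low (he : 1 ≤ e) (p H g r : ℕ) (hp : 2 ≤ p) (hH : 1 ≤ H) :
    ((1 - 1 / (p : ℝ)) * (1 - 2 / (H : ℝ))) * (H : ℝ) ^ (e + 1) ≤ (#{b ∈ bx e H | ¬ p ∣ val g b r} : ℝ) := by
  have h := box_head he H (fun _ v => ¬ p ∣ v) (fun _ => g) {r}
  simp only [mem_singleton, forall_eq] at h
  rw [h]
  calc ((1 - 1 / (p : ℝ)) * (1 - 2 / (H : ℝ))) * (H : ℝ) ^ (e + 1) =
        ∑ b ∈ bx (e - 1) H, (1 - 1 / (p : ℝ)) * (1 - 2 / (H : ℝ)) * H := by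
        rw [sum_const, card_bx, nsmul_eq_mul, Nat.sub_add_cancel he]
        push_cast; ring
    _ ≤ _ := sum_le_sum fun b _ => window_one_low p _ H hp hH

lemma box_one_up (he : 1 ≤ e) (p H g r : ℕ) (hp : 2 ≤ p) (hH : 1 ≤ H) :
    (#{b ∈ bx e H | ¬ p ∣ val g b r} : ℝ) ≤ ((1 - 1 / (p : ℝ)) * (1 + p / H)) * (H : ℝ) ^ (e + 1) := by
  have h := box_head he H (fun _ v => ¬ p ∣ v) (fun _ => g) {r}
  simp only [mem_singleton, forall_eq] at h
  rw [h]
  calc _ ≤ ∑ b ∈ bx (e - 1) H, (1 - 1 / (p : ℝ)) * (1 + p / H) * H :=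
        sum_le_sum fun b _ => window_one_up p _ H hp hH
    _ = _ := by
        rw [sum_const, card_bx, nsmul_eq_mul, Nat.sub_add_cancel he]
        push_cast; ring

lemma box_two_up (he : 1 ≤ e) (p q H : ℕ) (g : ℕ → ℕ) (r s : ℕ) (hp : p.Prime) (hq : q.Prime) (hpq : p ≠ q) (hH : 1 ≤ H) :
    (#{b ∈ bx e H | ¬ p ∣ val (g r) b r ∧ ¬ q ∣ val (g s) b s} : ℝ) ≤
      ((1 - 1 / (p : ℝ)) * (1 - 1 / (q : ℝ)) * (1 + p * q / H)) * (H : ℝ) ^ (e + 1) := by
  obtain ⟨e', rfl⟩ : ∃ e', e = e' + 1 := ⟨e - 1, by omega⟩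
  rw [card_filter_real, sum_bx_succ]
  calc _ ≤ ∑ b ∈ bx e' H, (1 - 1 / (p : ℝ)) * (1 - 1 / (q : ℝ)) * (1 + p * q / H) * H := by
        apply sum_le_sum
        intro b _
        refine le_trans (le_of_eq ?_) (window_two_up p q (g r + r * val 0 b r) (g s + s * val 0 b s) H hp hq hpq hH)
        rw [card_filter_real]
        apply sum_congr rfl
        intro u _
        have : ∀ r, val (g r) (Fin.cons u b : Fin (e' + 1 + 1) → ℕ) r = u + (g r + r * val 0 b r) := by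
          intro r; rw [val_cons]; ring
        rw [this, this]
    _ = _ := by
        rw [sum_const, card_bx, nsmul_eq_mul]
        push_cast; ring

lemma box_plane (he : 1 ≤ e) (p H : ℕ) (g : ℕ → ℕ) (r s : ℕ) (hp : p.Prime) (hr : r < p) (hs : s < p) (hrs : r ≠ s)
    (hH : 1 ≤ H) :
    (#{b ∈ bx e H | ¬ p ∣ val (g r) b r ∧ ¬ p ∣ val (g s) b s} : ℝ) ≤
      ((1 - 1 / (p : ℝ)) * (1 + p / H)) ^ 2 * (H : ℝ) ^ (e + 1) := by
  obtain ⟨e', rfl⟩ : ∃ e', e = e' + 1 := ⟨e - 1, by omega⟩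
  rw [card_filter_real, sum_bx_succ]
  cases e' with
  | zero =>
    rw [sum_bx_zero]
    refine le_trans (le_of_eq ?_) ((window_plane p r s (g r) (g s) H hp hr hs hrs hH).trans (le_of_eq ?_))
    · apply sum_congr rfl
      intro w _
      rw [card_filter_real]
      apply sum_congr rfl
      intro u _
      have h2 : ∀ m, val (g m) (Fin.cons u (fun _ => w) : Fin (0 + 1 + 1) → ℕ) m = u + (m * w + g m) := by
        intro m
        rw [val_cons, val_zero]; ring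
      rw [h2, h2]
    · ring
  | succ e'' =>
    rw [sum_bx_succ]
    calc _ ≤ ∑ b ∈ bx e'' H, ((1 - 1 / (p : ℝ)) * (1 + p / H) * H) ^ 2 := by
          apply sum_le_sum
          intro b _
          refine le_trans (le_of_eq ?_) (window_plane p r s (g r + r ^ 2 * val 0 b r) (g s + s ^ 2 * val 0 b s) H hp hr hs hrs hH)
          apply sum_congr rfl
          intro w _
          rw [card_filter_real]
          apply sum_congr rfl
          intro u _
          have h2 : ∀ m, val (g m) (Fin.cons u (Fin.cons w b : Fin (e'' + 1 + 1) → ℕ) : Fin (e'' + 1 + 1 + 1) → ℕ) m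
              = u + (m * w + (g m + m ^ 2 * val 0 b m)) := by
            intro m
            rw [val_cons, val_cons]; ring
          rw [h2, h2]
      _ = _ := by
          rw [sum_const, card_bx, nsmul_eq_mul]
          push_cast; ring

end box

variable {k : ℕ} {e : Fin k → ℕ}

/-- number of residues `r` mod `p` with `p ∣ f_i(r)` for some `i` -/
def om (g : Fin k → ℕ → ℕ) (a : ∀ i, Fin (e i + 1) → ℕ) (p : ℕ) : ℕ :=
  #{r ∈ range p | ∃ i, p ∣ val (g i r) (a i) r}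

/-- `1 - ω(p)/p` -/
noncomputable def dn (g : Fin k → ℕ → ℕ) (a : ∀ i, Fin (e i + 1) → ℕ) (p : ℕ) : ℝ := 1 - (om g a p : ℝ) / p

lemma dn_eq (g : Fin k → ℕ → ℕ) (a : ∀ i, Fin (e i + 1) → ℕ) {p : ℕ} (hp : 0 < p) :
    dn g a p = (1 / (p : ℝ)) * ∑ r ∈ range p, ∏ i, (if ¬ p ∣ val (g i r) (a i) r then (1 : ℝ) else 0) := by
  have h := card_filter_add_card_filter_not (s := range p) (fun r => ∃ i, p ∣ val (g i r) (a i) r)
  rw [card_range] at h
  have h2 : ((om g a p : ℕ) : ℝ) + (#{r ∈ range p | ¬ ∃ i, p ∣ val (g i r) (a i) r} : ℕ) = p := by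
    unfold om; exact_mod_cast h
  have h3 : ((#{r ∈ range p | ¬ ∃ i, p ∣ val (g i r) (a i) r} : ℕ) : ℝ) =
      ∑ r ∈ range p, ∏ i, (if ¬ p ∣ val (g i r) (a i) r then (1 : ℝ) else 0) := by
    rw [card_filter_real]
    apply sum_congr rfl
    intro r _
    rw [prod_ite_zero]
    simp
  rw [← h3]
  have hp0 : (0 : ℝ) < p := by exact_mod_cast hp
  unfold dn
  field_simp
  linarith

lemma dn_nonneg (g : Fin k → ℕ → ℕ) (a : ∀ i, Fin (e i + 1) → ℕ) {p : ℕ} (hp : 0 < p) : 0 ≤ dn g a p := by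
  rw [dn_eq g a hp]
  apply mul_nonneg (by positivity)
  apply sum_nonneg
  intro r _
  apply prod_nonneg
  intro i _
  split_ifs <;> norm_num

lemma sum_Bx_const_prod (H : ℕ) (c : ℝ) :
    ∏ i, (c * (H : ℝ) ^ (e i + 1)) = c ^ k * #(Bx e H) := by
  rw [prod_mul_distrib, card_Bx]
  simp

theorem sum_dn_low (he : ∀ i, 1 ≤ e i) (g : Fin k → ℕ → ℕ) (H p : ℕ) (hp : 2 ≤ p) (hH : 2 ≤ H) :
    ((1 - 1 / (p : ℝ)) * (1 - 2 / (H : ℝ))) ^ k * #(Bx e H) ≤ ∑ a ∈ Bx e H, dn g a p := by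
  have hp0 : (0 : ℝ) < p := by exact_mod_cast (by omega : 0 < p)
  have hH0 : (2 : ℝ) ≤ H := by exact_mod_cast hH
  have hp2 : (2 : ℝ) ≤ p := by exact_mod_cast hp
  have h1 : ∑ a ∈ Bx e H, dn g a p = (1 / (p : ℝ)) * ∑ r ∈ range p, ∏ i, (#{b ∈ bx (e i) H | ¬ p ∣ val (g i r) b r} : ℝ) := by
    rw [sum_congr rfl (fun a _ => dn_eq g a (by omega : 0 < p)), ← mul_sum, sum_comm]
    congr 1
    apply sum_congr rfl
    intro r _
    rw [sum_Bx_prod e H (fun i b => if ¬ p ∣ val (g i r) b r then (1 : ℝ) else 0)]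
    apply prod_congr rfl
    intro i _
    rw [card_filter_real]
  rw [h1]
  have h2 : ∀ r ∈ range p, ((1 - 1 / (p : ℝ)) * (1 - 2 / (H : ℝ))) ^ k * #(Bx e H) ≤
      ∏ i, (#{b ∈ bx (e i) H | ¬ p ∣ val (g i r) b r} : ℝ) := by
    intro r _
    rw [← sum_Bx_const_prod]
    apply prod_le_prod
    · intro i _
      have h3 : 1 / (p : ℝ) ≤ 1 := by rw [div_le_one hp0]; linarith
      have h4 : 2 / (H : ℝ) ≤ 1 := by rw [div_le_one (by linarith)]; linarith
      have := sub_nonneg.2 h3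
      have := sub_nonneg.2 h4
      positivity
    · intro i _
      exact box_one_low (he i) p H _ r hp (by omega)
  calc _ = (1 / (p : ℝ)) * ∑ r ∈ range p, ((1 - 1 / (p : ℝ)) * (1 - 2 / (H : ℝ))) ^ k * #(Bx e H) := by
        rw [sum_const, card_range, nsmul_eq_mul]; field_simp
    _ ≤ _ := mul_le_mul_of_nonneg_left (sum_le_sum h2) (by positivity)

/-- pair product expansions -/
lemma sum_dn_mul (g : Fin k → ℕ → ℕ) (H p q : ℕ) (hp : 0 < p) (hq : 0 < q) :
    ∑ a ∈ Bx e H, dn g a p * dn g a q = (1 / ((p : ℝ) * q)) * ∑ r ∈ range p, ∑ s ∈ range q,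
      ∏ i, (#{b ∈ bx (e i) H | ¬ p ∣ val (g i r) b r ∧ ¬ q ∣ val (g i s) b s} : ℝ) := by
  have h1 : ∀ a ∈ Bx e H, dn g a p * dn g a q = (1 / ((p : ℝ) * q)) * ∑ r ∈ range p, ∑ s ∈ range q,
      ∏ i, (if ¬ p ∣ val (g i r) (a i) r ∧ ¬ q ∣ val (g i s) (a i) s then (1 : ℝ) else 0) := by
    intro a _
    rw [dn_eq g a hp, dn_eq g a hq]
    rw [show (1 / (p : ℝ) * ∑ r ∈ range p, ∏ i, (if ¬ p ∣ val (g i r) (a i) r then (1 : ℝ) else 0)) *
        (1 / (q : ℝ) * ∑ r ∈ range q, ∏ i, (if ¬ q ∣ val (g i r) (a i) r then (1 : ℝ) else 0)) =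
        (1 / ((p : ℝ) * q)) * ((∑ r ∈ range p, ∏ i, (if ¬ p ∣ val (g i r) (a i) r then (1 : ℝ) else 0)) *
        (∑ r ∈ range q, ∏ i, (if ¬ q ∣ val (g i r) (a i) r then (1 : ℝ) else 0))) by
      rw [one_div_mul_one_div_rev .. |>.symm]; ring]
    congr 1
    rw [sum_mul_sum]
    apply sum_congr rfl; intro r _
    apply sum_congr rfl; intro s _
    rw [← prod_mul_distrib]
    apply prod_congr rfl; intro i _
    by_cases h1 : p ∣ val (g i r) (a i) r <;> by_cases h2 : q ∣ val (g i s) (a i) s <;> simp [h1, h2]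
  rw [sum_congr rfl h1, ← mul_sum]
  congr 1
  rw [sum_comm]
  apply sum_congr rfl; intro r _
  rw [sum_comm]
  apply sum_congr rfl; intro s _
  rw [sum_Bx_prod e H (fun i b => if ¬ p ∣ val (g i r) b r ∧ ¬ q ∣ val (g i s) b s then (1 : ℝ) else 0)]
  apply prod_congr rfl
  intro i _
  rw [card_filter_real]

theorem sum_dn_cross (he : ∀ i, 1 ≤ e i) (g : Fin k → ℕ → ℕ) (H p q : ℕ) (hp : p.Prime) (hq : q.Prime) (hpq : p ≠ q)
    (hH : 1 ≤ H) :
    ∑ a ∈ Bx e H, dn g a p * dn g a q ≤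
      ((1 - 1 / (p : ℝ)) * (1 - 1 / (q : ℝ)) * (1 + p * q / H)) ^ k * #(Bx e H) := by
  have hp0 : (0 : ℝ) < p := by exact_mod_cast hp.pos
  have hq0 : (0 : ℝ) < q := by exact_mod_cast hq.pos
  rw [sum_dn_mul g H p q hp.pos hq.pos]
  calc _ ≤ (1 / ((p : ℝ) * q)) * ∑ r ∈ range p, ∑ s ∈ range q,
        ((1 - 1 / (p : ℝ)) * (1 - 1 / (q : ℝ)) * (1 + p * q / H)) ^ k * #(Bx e H) := by
        apply mul_le_mul_of_nonneg_left _ (by positivity)
        apply sum_le_sum; intro r _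
        apply sum_le_sum; intro s _
        rw [← sum_Bx_const_prod]
        apply prod_le_prod
        · intro i _; exact Nat.cast_nonneg _
        · intro i _; exact box_two_up (he i) p q H (g i) r s hp hq hpq hH
    _ = _ := by
        simp only [sum_const, card_range, nsmul_eq_mul]
        field_simp

theorem sum_dn_sq (he : ∀ i, 1 ≤ e i) (g : Fin k → ℕ → ℕ) (H p : ℕ) (hp : p.Prime) (hH : 1 ≤ H) :
    ∑ a ∈ Bx e H, dn g a p ^ 2 ≤
      ((1 / (p : ℝ)) * (((1 - 1 / (p : ℝ)) * (1 + p / H)) ^ k - ((1 - 1 / (p : ℝ)) * (1 + p / H)) ^ (2 * k)) +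
        ((1 - 1 / (p : ℝ)) * (1 + p / H)) ^ (2 * k)) * #(Bx e H) := by
  have hp0 : (0 : ℝ) < p := by exact_mod_cast hp.pos
  have hp1 : (1 : ℝ) ≤ p := by exact_mod_cast hp.one_lt.le
  have h1p : 0 ≤ 1 - 1 / (p : ℝ) := by rw [sub_nonneg, div_le_one hp0]; exact hp1
  set c : ℝ := (1 - 1 / (p : ℝ)) * (1 + p / H) with hc
  have hc0 : 0 ≤ c := by positivity
  simp_rw [sq (dn g _ p)]
  rw [sum_dn_mul g H p p hp.pos hp.pos]
  have hterm : ∀ r ∈ range p, ∀ s ∈ range p,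
      ∏ i, (#{b ∈ bx (e i) H | ¬ p ∣ val (g i r) b r ∧ ¬ p ∣ val (g i s) b s} : ℝ) ≤
        (if r = s then c ^ k * #(Bx e H) - c ^ (2 * k) * #(Bx e H) else 0) + c ^ (2 * k) * #(Bx e H) := by
    intro r hr s hs
    rw [mem_range] at hr hs
    split_ifs with h
    · subst h
      have : ∏ i, (#{b ∈ bx (e i) H | ¬ p ∣ val (g i r) b r ∧ ¬ p ∣ val (g i r) b r} : ℝ) ≤ c ^ k * #(Bx e H) := by
        rw [← sum_Bx_const_prod]
        apply prod_le_prod
        · intro i _; exact Nat.cast_nonneg _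
        · intro i _
          simp only [and_self]
          exact box_one_up (he i) p H _ r hp.two_le hH
      linarith
    · rw [zero_add, pow_mul, ← sum_Bx_const_prod]
      apply prod_le_prod
      · intro i _; exact Nat.cast_nonneg _
      · intro i _; exact box_plane (he i) p H (g i) r s hp hr hs h hH
  calc _ ≤ (1 / ((p : ℝ) * p)) * ∑ r ∈ range p, ∑ s ∈ range p,
        ((if r = s then c ^ k * #(Bx e H) - c ^ (2 * k) * #(Bx e H) else 0) + c ^ (2 * k) * #(Bx e H)) := by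
        apply mul_le_mul_of_nonneg_left _ (by positivity)
        apply sum_le_sum; intro r hr
        apply sum_le_sum; intro s hs
        exact hterm r hr s hs
    _ = _ := by
        have h2 : ∀ r ∈ range p, ∑ s ∈ range p, ((if r = s then c ^ k * (#(Bx e H) : ℝ) - c ^ (2 * k) * #(Bx e H) else 0) +
              c ^ (2 * k) * #(Bx e H)) =
            (c ^ k * #(Bx e H) - c ^ (2 * k) * #(Bx e H)) + p * (c ^ (2 * k) * #(Bx e H)) := by
          intro r hr
          rw [sum_add_distrib, sum_ite_eq (range p) r, if_pos hr, sum_const, card_range, nsmul_eq_mul]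
        rw [sum_congr rfl h2, sum_const, card_range, nsmul_eq_mul]
        field_simp

end Pool.Agent.H373R2.BH
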