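import Mathlib
import Pool.Agent.H373R2.BH.Density

namespace Pool.Agent.H373R2.BH
open Finset

variable {k : ℕ} {e : Fin k → ℕ}

/-- local factor `(1-1/p)^(-k) (1 - ω(p)/p)` -/
noncomputable def uf (g : Fin k → ℕ → ℕ) (a : ∀ i, Fin (e i + 1) → ℕ) (p : ℕ) : ℝ :=
  ((1 - 1 / (p : ℝ)) ^ k)⁻¹ * dn g a p

/-- truncated singular series -/
noncomputable def sg (g : Fin k → ℕ → ℕ) (a : ∀ i, Fin (e i + 1) → ℕ) (y : ℕ) : ℝ :=
  ∏ p ∈ (range (y + 1)).filter Nat.Prime, uf g a p

/-- primes in `(y, z]` -/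
def PQ (y z : ℕ) : Finset ℕ := (Ioc y z).filter Nat.Prime

noncomputable def TT (g : Fin k → ℕ → ℕ) (a : ∀ i, Fin (e i + 1) → ℕ) (y z : ℕ) : ℝ :=
  ∑ p ∈ PQ y z, (uf g a p - 1)

lemma one_sub_pos {p : ℕ} (hp : p.Prime) : (0 : ℝ) < 1 - 1 / (p : ℝ) := by
  have : (2 : ℝ) ≤ p := by exact_mod_cast hp.two_le
  rw [sub_pos, div_lt_one (by linarith)]; linarith

lemma uf_nonneg (g : Fin k → ℕ → ℕ) (a : ∀ i, Fin (e i + 1) → ℕ) {p : ℕ} (hp : p.Prime) : 0 ≤ uf g a p := by
  unfold uf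
  have := one_sub_pos hp
  have := dn_nonneg g a hp.pos
  positivity

lemma sg_nonneg (g : Fin k → ℕ → ℕ) (a : ∀ i, Fin (e i + 1) → ℕ) (y : ℕ) : 0 ≤ sg g a y :=
  prod_nonneg fun _ hp => uf_nonneg g a (mem_filter.1 hp).2

lemma sg_le (g : Fin k → ℕ → ℕ) (a : ∀ i, Fin (e i + 1) → ℕ) (y z : ℕ) (hyz : y ≤ z) :
    sg g a z ≤ sg g a y * Real.exp (TT g a y z) := by
  have h1 : (range (z + 1)).filter Nat.Prime = (range (y + 1)).filter Nat.Prime ∪ PQ y z := by
    ext p; simp only [mem_filter, mem_range, mem_union, PQ, mem_Ioc]; constructor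
    · rintro ⟨h1, h2⟩
      by_cases h : p < y + 1
      · exact Or.inl ⟨h, h2⟩
      · exact Or.inr ⟨⟨by omega, by omega⟩, h2⟩
    · rintro (⟨h1, h2⟩ | ⟨⟨h1, h2⟩, h3⟩)
      · exact ⟨by omega, h2⟩
      · exact ⟨by omega, h3⟩
  have h2 : Disjoint ((range (y + 1)).filter Nat.Prime) (PQ y z) := by
    rw [disjoint_left]; intro p h1 h2
    simp only [mem_filter, mem_range, PQ, mem_Ioc] at h1 h2
    omega
  unfold sg TT
  rw [h1, prod_union h2, Real.exp_sum]
  apply mul_le_mul_of_nonneg_left _ (prod_nonneg fun p hp => uf_nonneg g a (mem_filter.1 hp).2)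
  apply prod_le_prod
  · intro p hp; exact uf_nonneg g a (mem_filter.1 hp).2
  · intro p _
    have := Real.add_one_le_exp (uf g a p - 1)
    linarith

lemma pow_one_add_le (t : ℝ) (ht0 : 0 ≤ t) (ht1 : t ≤ 1) (m : ℕ) : (1 + t) ^ m ≤ 1 + 2 ^ m * t := by
  have key : (1 + t) ^ m ≤ 1 + (2 ^ m - 1) * t := by
    induction m with
    | zero => simp
    | succ m ih =>
      have h2 : (1 : ℝ) ≤ 2 ^ m := one_le_pow₀ (by norm_num)
      calc (1 + t) ^ (m + 1) = (1 + t) ^ m * (1 + t) := pow_succ _ _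
        _ ≤ (1 + (2 ^ m - 1) * t) * (1 + t) := mul_le_mul_of_nonneg_right ih (by linarith)
        _ ≤ 1 + (2 ^ (m + 1) - 1) * t := by
          rw [pow_succ]
          have h3 : 0 ≤ (2 ^ m - 1) * (t * (1 - t)) := mul_nonneg (by linarith) (mul_nonneg ht0 (by linarith))
          nlinarith
  linarith

lemma inv_pow_le (k : ℕ) {p : ℕ} (hp : p.Prime) : ((1 - 1 / (p : ℝ)) ^ k)⁻¹ ≤ 1 + 2 ^ k * (2 / p) := by
  have hp2 : (2 : ℝ) ≤ p := by exact_mod_cast hp.two_le
  have h1 := one_sub_pos hp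
  have h2 : (1 - 1 / (p : ℝ))⁻¹ ≤ 1 + 2 / p := by
    rw [inv_le_iff_one_le_mul₀ h1]
    have h3 : (1 + 2 / (p : ℝ)) * (1 - 1 / p) = 1 + (1 / p) * (1 - 2 / p) := by field_simp; ring
    rw [h3]
    have : 0 ≤ 1 - 2 / (p : ℝ) := by rw [sub_nonneg, div_le_one (by linarith)]; exact hp2
    have : 0 ≤ (1 / (p : ℝ)) * (1 - 2 / p) := by positivity
    linarith
  rw [← inv_pow]
  calc ((1 - 1 / (p : ℝ))⁻¹) ^ k ≤ (1 + 2 / p) ^ k := pow_le_pow_left₀ (by positivity) h2 k
    _ ≤ _ := pow_one_add_le _ (by positivity) (by rw [div_le_one (by linarith)]; exact hp2) k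

theorem tail_second (k : ℕ) : ∃ C : ℝ, 0 < C ∧ ∀ (e : Fin k → ℕ), (∀ i, 1 ≤ e i) → ∀ (g : Fin k → ℕ → ℕ) (H y z : ℕ),
    1 ≤ y → z ^ 2 ≤ H → 2 ≤ H →
    ∑ a ∈ Bx e H, (TT g a y z) ^ 2 ≤ C * (1 / y + (z : ℝ) ^ 4 / H) * #(Bx e H) := by
  set C₁ : ℝ := 2 ^ k + 4 * k with hC₁
  set C₂ : ℝ := 2 ^ (k + 1) + 4 ^ k * (1 + 2 ^ (k + 1)) + 4 * k with hC₂
  have hk0 : (0 : ℝ) ≤ k := Nat.cast_nonneg k
  refine ⟨C₁ + C₂, by positivity, fun e he g H y z hy hz hH => ?_⟩
  set N := (#(Bx e H) : ℝ) with hN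
  have hN0 : 0 ≤ N := Nat.cast_nonneg _
  have hH0 : (2 : ℝ) ≤ H := by exact_mod_cast hH
  have hHpos : (0 : ℝ) < H := by linarith
  have hzH : (z : ℝ) ^ 2 ≤ H := by exact_mod_cast hz
  -- mean of uf
  have hmean : ∀ p ∈ PQ y z, (1 - 2 * k / H) * N ≤ ∑ a ∈ Bx e H, uf g a p := by
    intro p hp
    have hpp : p.Prime := (mem_filter.1 hp).2
    have h1 := sum_dn_low he g H p hpp.two_le hH
    have h2 := one_sub_pos hpp
    have h3 : ∑ a ∈ Bx e H, uf g a p = ((1 - 1 / (p : ℝ)) ^ k)⁻¹ * ∑ a ∈ Bx e H, dn g a p := by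
      unfold uf; rw [mul_sum]
    rw [h3]
    have h4 : 1 - 2 * k / H ≤ (1 - 2 / (H : ℝ)) ^ k := by
      have h5 : -2 ≤ -(2 / (H : ℝ)) := by
        rw [neg_le_neg_iff, div_le_iff₀ hHpos]; linarith
      have h6 := one_add_mul_le_pow h5 k
      have h7 : 1 + (k : ℝ) * -(2 / H) = 1 - 2 * k / H := by ring
      have h8 : 1 + -(2 / (H : ℝ)) = 1 - 2 / H := by ring
      rw [h7, h8] at h6; exact h6
    calc (1 - 2 * k / H) * N ≤ (1 - 2 / (H : ℝ)) ^ k * N := mul_le_mul_of_nonneg_right h4 hN0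
      _ = ((1 - 1 / (p : ℝ)) ^ k)⁻¹ * (((1 - 1 / (p : ℝ)) * (1 - 2 / (H : ℝ))) ^ k * N) := by
          rw [mul_pow]; field_simp
      _ ≤ _ := mul_le_mul_of_nonneg_left h1 (by positivity)
  -- cross terms
  have hcross : ∀ p ∈ PQ y z, ∀ q ∈ PQ y z, p ≠ q →
      ∑ a ∈ Bx e H, (uf g a p - 1) * (uf g a q - 1) ≤ C₁ * (p * q / H) * N := by
    intro p hp q hq hpq
    have hpp : p.Prime := (mem_filter.1 hp).2
    have hqq : q.Prime := (mem_filter.1 hq).2
    have hpz : p ≤ z := (mem_Ioc.1 (mem_filter.1 hp).1).2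
    have hqz : q ≤ z := (mem_Ioc.1 (mem_filter.1 hq).1).2
    have hp1 : (1 : ℝ) ≤ p := by exact_mod_cast hpp.one_lt.le
    have hq1 : (1 : ℝ) ≤ q := by exact_mod_cast hqq.one_lt.le
    have h2 := one_sub_pos hpp
    have h2' := one_sub_pos hqq
    have hpqH : (p : ℝ) * q / H ≤ 1 := by
      rw [div_le_one hHpos]
      have : (p : ℝ) * q ≤ z * z := mul_le_mul (by exact_mod_cast hpz) (by exact_mod_cast hqz) (by positivity) (by positivity)
      nlinarith
    have h3 : ∑ a ∈ Bx e H, uf g a p * uf g a q ≤ (1 + 2 ^ k * (p * q / H)) * N := by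
      have h4 := sum_dn_cross he g H p q hpp hqq hpq (by omega)
      have h5 : ∑ a ∈ Bx e H, uf g a p * uf g a q =
          (((1 - 1 / (p : ℝ)) ^ k)⁻¹ * ((1 - 1 / (q : ℝ)) ^ k)⁻¹) * ∑ a ∈ Bx e H, dn g a p * dn g a q := by
        unfold uf; rw [mul_sum]; apply sum_congr rfl; intro a _; ring
      rw [h5]
      calc _ ≤ (((1 - 1 / (p : ℝ)) ^ k)⁻¹ * ((1 - 1 / (q : ℝ)) ^ k)⁻¹) *
            (((1 - 1 / (p : ℝ)) * (1 - 1 / (q : ℝ)) * (1 + p * q / H)) ^ k * N) :=
            mul_le_mul_of_nonneg_left h4 (by positivity)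
        _ = (1 + p * q / H) ^ k * N := by
            have hA : (1 - 1 / (p : ℝ)) ^ k ≠ 0 := by positivity
            have hB : (1 - 1 / (q : ℝ)) ^ k ≠ 0 := by positivity
            rw [mul_pow, mul_pow]
            generalize (1 - 1 / (p : ℝ)) ^ k = A at hA
            generalize (1 - 1 / (q : ℝ)) ^ k = B at hB
            field_simp
        _ ≤ _ := by
            apply mul_le_mul_of_nonneg_right _ hN0
            exact pow_one_add_le _ (by positivity) hpqH k
    have h6 := hmean p hp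
    have h7 := hmean q hq
    have h8 : ∑ a ∈ Bx e H, (uf g a p - 1) * (uf g a q - 1) =
        ∑ a ∈ Bx e H, uf g a p * uf g a q - ∑ a ∈ Bx e H, uf g a p - ∑ a ∈ Bx e H, uf g a q + N := by
      have : ∀ a ∈ Bx e H, (uf g a p - 1) * (uf g a q - 1) = uf g a p * uf g a q - uf g a p - uf g a q + 1 := by
        intro a _; ring
      rw [sum_congr rfl this, sum_add_distrib, sum_sub_distrib, sum_sub_distrib, sum_const, nsmul_eq_mul, mul_one]
    rw [h8]
    have h9 : 4 * (k : ℝ) / H ≤ 4 * k * (p * q / H) := by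
      have : (1 : ℝ) ≤ p * q := by nlinarith
      have h10 : 4 * (k : ℝ) * (p * q / H) = (4 * k / H) * (p * q) := by ring
      rw [h10]
      exact le_mul_of_one_le_right (by positivity) this
    have h11 : 4 * (k : ℝ) / H * N ≤ 4 * k * (p * q / H) * N := mul_le_mul_of_nonneg_right h9 hN0
    have h12 : 2 * (2 * (k : ℝ) / H) * N = 4 * (k : ℝ) / H * N := by ring
    nlinarith
  -- diagonal terms
  have hdiag : ∀ p ∈ PQ y z, ∑ a ∈ Bx e H, (uf g a p - 1) * (uf g a p - 1) ≤ C₂ * (1 / (p : ℝ) ^ 2 + p / H) * N := by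
    intro p hp
    have hpp : p.Prime := (mem_filter.1 hp).2
    have hpz : p ≤ z := (mem_Ioc.1 (mem_filter.1 hp).1).2
    have hp2 : (2 : ℝ) ≤ p := by exact_mod_cast hpp.two_le
    have hp0 : (0 : ℝ) < p := by linarith
    have h2 := one_sub_pos hpp
    have hpzr : (p : ℝ) ≤ z := by exact_mod_cast hpz
    have hpH : (p : ℝ) / H ≤ 1 := by
      rw [div_le_one hHpos]
      nlinarith
    set b : ℝ := 1 + p / H with hb
    have hb1 : 1 ≤ b := by rw [hb]; have : 0 ≤ (p : ℝ) / H := by positivity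
                           linarith
    set v : ℝ := ((1 - 1 / (p : ℝ)) ^ k)⁻¹ with hv
    have hv1 : 1 ≤ v := by
      rw [hv]; apply (one_le_inv₀ (by positivity)).2
      apply pow_le_one₀ h2.le
      have : 0 < 1 / (p : ℝ) := by positivity
      linarith
    have hv2 : v ≤ 1 + 2 ^ k * (2 / p) := inv_pow_le k hpp
    have h3 : ∑ a ∈ Bx e H, uf g a p * uf g a p ≤ (1 + 4 ^ k * (p / H)) * (1 + 2 ^ (k + 1) * (1 / (p : ℝ) ^ 2)) * N := by
      have h4 := sum_dn_sq he g H p hpp (by omega)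
      have h5 : ∑ a ∈ Bx e H, uf g a p * uf g a p = v ^ 2 * ∑ a ∈ Bx e H, dn g a p ^ 2 := by
        unfold uf; rw [mul_sum]; apply sum_congr rfl; intro a _; rw [hv]; ring
      rw [h5]
      have hvv : v * (1 - 1 / (p : ℝ)) ^ k = 1 := by rw [hv]; exact inv_mul_cancel₀ (by positivity)
      calc _ ≤ v ^ 2 * (((1 / (p : ℝ)) * (((1 - 1 / (p : ℝ)) * b) ^ k - ((1 - 1 / (p : ℝ)) * b) ^ (2 * k)) +
              ((1 - 1 / (p : ℝ)) * b) ^ (2 * k)) * N) := mul_le_mul_of_nonneg_left h4 (by positivity)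
        _ = ((1 / (p : ℝ)) * (v * (v * (1 - 1 / (p : ℝ)) ^ k) * b ^ k - (v * (1 - 1 / (p : ℝ)) ^ k) ^ 2 * b ^ (2 * k)) +
              (v * (1 - 1 / (p : ℝ)) ^ k) ^ 2 * b ^ (2 * k)) * N := by
            rw [mul_pow, mul_pow, pow_mul' (1 - 1 / (p : ℝ)) 2 k]; ring
        _ = ((1 / (p : ℝ)) * (v * b ^ k - b ^ (2 * k)) + b ^ (2 * k)) * N := by rw [hvv]; ring
        _ ≤ (b ^ (2 * k) * (1 + (1 / p) * (v - 1))) * N := by
            apply mul_le_mul_of_nonneg_right _ hN0
            have h6 : b ^ k ≤ b ^ (2 * k) := pow_le_pow_right₀ hb1 (by omega)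
            have h7 : (1 / (p : ℝ)) * (v * b ^ k) ≤ (1 / (p : ℝ)) * (v * b ^ (2 * k)) := by
              apply mul_le_mul_of_nonneg_left _ (by positivity)
              exact mul_le_mul_of_nonneg_left h6 (by linarith)
            nlinarith
        _ ≤ _ := by
            apply mul_le_mul_of_nonneg_right _ hN0
            apply mul_le_mul
            · have := pow_one_add_le ((p : ℝ) / H) (by positivity) hpH (2 * k)
              have h8 : (2 : ℝ) ^ (2 * k) = 4 ^ k := by rw [pow_mul]; norm_num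
              rw [h8] at this; exact this
            · have h9 : (1 / (p : ℝ)) * (v - 1) ≤ (1 / p) * (2 ^ k * (2 / p)) :=
                mul_le_mul_of_nonneg_left (by linarith) (by positivity)
              have h10 : (1 / (p : ℝ)) * (2 ^ k * (2 / p)) = 2 ^ (k + 1) * (1 / (p : ℝ) ^ 2) := by
                rw [pow_succ]; field_simp
              linarith
            · have : 0 ≤ (1 / (p : ℝ)) * (v - 1) := mul_nonneg (by positivity) (by linarith)
              linarith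
            · positivity
    have h6 := hmean p hp
    have h8 : ∑ a ∈ Bx e H, (uf g a p - 1) * (uf g a p - 1) =
        ∑ a ∈ Bx e H, uf g a p * uf g a p - 2 * ∑ a ∈ Bx e H, uf g a p + N := by
      have : ∀ a ∈ Bx e H, (uf g a p - 1) * (uf g a p - 1) = uf g a p * uf g a p - 2 * uf g a p + 1 := by
        intro a _; ring
      rw [sum_congr rfl this, sum_add_distrib, sum_sub_distrib, ← mul_sum, sum_const, nsmul_eq_mul, mul_one]
    rw [h8]
    have h9 : (1 + 4 ^ k * ((p : ℝ) / H)) * (1 + 2 ^ (k + 1) * (1 / (p : ℝ) ^ 2)) - 2 * (1 - 2 * k / H) + 1 ≤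
        C₂ * (1 / (p : ℝ) ^ 2 + p / H) := by
      have h10 : 4 * (k : ℝ) / H ≤ 4 * k * (p / H) := by
        have h11 : 4 * (k : ℝ) * (p / H) = (4 * k / H) * p := by ring
        rw [h11]
        exact le_mul_of_one_le_right (by positivity) (by linarith)
      have h12 : 1 / (p : ℝ) ^ 2 ≤ 1 := by
        rw [div_le_one (by positivity)]; nlinarith
      have h13 : 4 ^ k * ((p : ℝ) / H) * (2 ^ (k + 1) * (1 / (p : ℝ) ^ 2)) ≤ 4 ^ k * ((p : ℝ) / H) * (2 ^ (k + 1) * 1) := by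
        apply mul_le_mul_of_nonneg_left _ (by positivity)
        exact mul_le_mul_of_nonneg_left h12 (by positivity)
      have h14 : (0 : ℝ) ≤ (p : ℝ) / H := by positivity
      have h15 : (0 : ℝ) ≤ 1 / (p : ℝ) ^ 2 := by positivity
      have h16 : (0 : ℝ) ≤ 4 ^ k * (1 + 2 ^ (k + 1)) * (1 / (p : ℝ) ^ 2) := by positivity
      have h17 : (0 : ℝ) ≤ 4 * k * (1 / (p : ℝ) ^ 2) := by positivity
      have h18 : (0 : ℝ) ≤ 2 ^ (k + 1) * ((p : ℝ) / H) := by positivity
      have h19 : 2 * (2 * (k : ℝ) / H) = 4 * k / H := by ring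
      rw [hC₂]
      nlinarith
    nlinarith [mul_le_mul_of_nonneg_right h9 hN0]
  -- assemble
  have hexp : ∑ a ∈ Bx e H, (TT g a y z) ^ 2 = ∑ p ∈ PQ y z, ∑ q ∈ PQ y z, ∑ a ∈ Bx e H, (uf g a p - 1) * (uf g a q - 1) := by
    unfold TT
    simp_rw [sq, sum_mul_sum]
    rw [sum_comm]
    apply sum_congr rfl; intro p _
    rw [sum_comm]
  rw [hexp]
  have hrow : ∀ p ∈ PQ y z, ∑ q ∈ PQ y z, ∑ a ∈ Bx e H, (uf g a p - 1) * (uf g a q - 1) ≤
      C₂ * (1 / (p : ℝ) ^ 2 + p / H) * N + ∑ q ∈ PQ y z, (if p = q then 0 else C₁ * (p * q / H) * N) := by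
    intro p hp
    calc _ ≤ ∑ q ∈ PQ y z, ((if p = q then C₂ * (1 / (p : ℝ) ^ 2 + p / H) * N else 0) +
          (if p = q then 0 else C₁ * (p * q / H) * N)) := by
          apply sum_le_sum
          intro q hq
          split_ifs with h
          · subst h; rw [add_zero]; exact hdiag p hp
          · rw [zero_add]; exact hcross p hp q hq h
      _ = _ := by
          rw [sum_add_distrib, sum_ite_eq, if_pos hp]
  have hsump : ∑ p ∈ PQ y z, (p : ℝ) ≤ (z : ℝ) ^ 2 := by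
    calc ∑ p ∈ PQ y z, (p : ℝ) ≤ ∑ p ∈ Ioc 0 z, (p : ℝ) := by
          apply sum_le_sum_of_subset_of_nonneg
          · intro p hp
            have := mem_Ioc.1 (mem_filter.1 hp).1
            rw [mem_Ioc]; omega
          · intro _ _ _; positivity
      _ ≤ ∑ _p ∈ Ioc 0 z, (z : ℝ) := sum_le_sum fun p hp => by exact_mod_cast (mem_Ioc.1 hp).2
      _ = _ := by rw [sum_const, Nat.card_Ioc, nsmul_eq_mul, Nat.sub_zero]; ring
  have hsumsq : ∑ p ∈ PQ y z, 1 / (p : ℝ) ^ 2 ≤ 1 / (y : ℝ) := by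
    rcases Nat.lt_or_ge z y with h | h
    · have : PQ y z = ∅ := by
        unfold PQ; rw [Ioc_eq_empty (by omega), filter_empty]
      rw [this, sum_empty]; positivity
    calc ∑ p ∈ PQ y z, 1 / (p : ℝ) ^ 2 ≤ ∑ p ∈ Ioc y z, ((p : ℝ) ^ 2)⁻¹ := by
          simp_rw [one_div]
          apply sum_le_sum_of_subset_of_nonneg (filter_subset _ _)
          intro _ _ _; positivity
      _ ≤ (y : ℝ)⁻¹ - (z : ℝ)⁻¹ := sum_Ioc_inv_sq_le_sub (by omega) h
      _ ≤ 1 / y := by
          rw [one_div]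
          have : (0 : ℝ) ≤ (z : ℝ)⁻¹ := by positivity
          linarith
  have hC₂0 : 0 < C₂ := by positivity
  have hC₁0 : 0 < C₁ := by positivity
  have hz1 : (z : ℝ) ^ 2 ≤ (z : ℝ) ^ 4 := by
    rcases Nat.eq_zero_or_pos z with h | h
    · subst h; simp
    · exact pow_le_pow_right₀ (by exact_mod_cast h) (by norm_num)
  calc _ ≤ ∑ p ∈ PQ y z, (C₂ * (1 / (p : ℝ) ^ 2 + p / H) * N + ∑ q ∈ PQ y z, (if p = q then 0 else C₁ * (p * q / H) * N)) :=
        sum_le_sum hrow
    _ ≤ ∑ p ∈ PQ y z, (C₂ * (1 / (p : ℝ) ^ 2 + p / H) * N + ∑ q ∈ PQ y z, C₁ * (p * q / H) * N) := by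
        apply sum_le_sum; intro p _
        apply add_le_add le_rfl
        apply sum_le_sum; intro q _
        split_ifs
        · positivity
        · exact le_rfl
    _ = C₂ * (∑ p ∈ PQ y z, 1 / (p : ℝ) ^ 2 + (∑ p ∈ PQ y z, (p : ℝ)) / H) * N +
          C₁ * ((∑ p ∈ PQ y z, (p : ℝ)) * (∑ q ∈ PQ y z, (q : ℝ)) / H) * N := by
        rw [sum_add_distrib]
        congr 1
        · rw [← sum_mul, ← mul_sum, sum_add_distrib, sum_div]
        · rw [sum_mul_sum, sum_div, mul_sum, sum_mul]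
          apply sum_congr rfl; intro p _
          rw [sum_div, mul_sum, sum_mul]
    _ ≤ C₂ * (1 / y + (z : ℝ) ^ 4 / H) * N + C₁ * ((z : ℝ) ^ 2 * (z : ℝ) ^ 2 / H) * N := by
        have hs0 : 0 ≤ ∑ p ∈ PQ y z, (p : ℝ) := sum_nonneg fun _ _ => by positivity
        apply add_le_add
        · apply mul_le_mul_of_nonneg_right _ hN0
          apply mul_le_mul_of_nonneg_left _ hC₂0.le
          apply add_le_add hsumsq
          apply div_le_div_of_nonneg_right (hsump.trans hz1) hHpos.le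
        · apply mul_le_mul_of_nonneg_right _ hN0
          apply mul_le_mul_of_nonneg_left _ hC₁0.le
          apply div_le_div_of_nonneg_right _ hHpos.le
          exact mul_le_mul hsump hsump hs0 (by positivity)
    _ ≤ _ := by
        have h20 : (0 : ℝ) ≤ 1 / y := by positivity
        have h21 : (z : ℝ) ^ 2 * (z : ℝ) ^ 2 / H = (z : ℝ) ^ 4 / H := by ring
        rw [h21]
        have h22 : 0 ≤ C₁ * (1 / (y : ℝ)) * N := by positivity
        nlinarith

/-- mean of the truncated singular series -/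
theorem sum_sg_le (he : ∀ i, 1 ≤ e i) (g : Fin k → ℕ → ℕ) (hg : ∀ i, LD (g i)) (y : ℕ) (H : ℕ) (hH : 1 ≤ H) :
    ∑ a ∈ Bx e H, sg g a y ≤ (1 + (∏ p ∈ (range (y + 1)).filter Nat.Prime, p : ℕ) / (H : ℝ)) ^ k * #(Bx e H) := by
  classical
  set s := (range (y + 1)).filter Nat.Prime with hs
  have hsp : ∀ p ∈ s, p.Prime := fun p hp => (mem_filter.1 hp).2
  set P := ∏ p ∈ s, p with hP
  have hPpos : 0 < P := prod_pos fun p hp => (hsp p hp).pos
  have hPr : (0 : ℝ) < P := by exact_mod_cast hPpos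
  have hHpos : (0 : ℝ) < H := by exact_mod_cast hH
  -- congruence property of values
  have hcong : ∀ (i : Fin k) (b : Fin (e i + 1) → ℕ) (p r : ℕ), p ∣ val (g i (r % p)) b (r % p) ↔ p ∣ val (g i r) b r := by
    intro i b p r
    have h1 : LD (fun n => val (g i n) b n) := by
      have : (fun n => val (g i n) b n) = fun n => g i n + val 0 b n := by
        funext n
        have := val_add (g i n) 0 b n
        rwa [add_zero] at this
      rw [this]; exact (hg i).add (LD_val b)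
    obtain ⟨c, hc⟩ := h1 (r % p) r (Nat.mod_le r p)
    simp only at hc
    rw [hc]
    have h2 : p ∣ (r - r % p) * c := (Nat.dvd_sub_mod r).mul_right c
    exact (Nat.dvd_add_left h2).symm
  have hdn : ∀ a : ∀ i, Fin (e i + 1) → ℕ, ∏ p ∈ s, dn g a p =
      (1 / (P : ℝ)) * ∑ r ∈ range P, ∏ i, (if ∀ p ∈ s, ¬ p ∣ val (g i r) (a i) r then (1 : ℝ) else 0) := by
    intro a
    have h1 := crt_count s hsp (fun p r => ∀ i, ¬ p ∣ val (g i r) (a i) r)
    have h2 : ∏ p ∈ s, dn g a p = ∏ p ∈ s, ((#{r ∈ range p | ∀ i, ¬ p ∣ val (g i r) (a i) r} : ℝ) / p) := by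
      apply prod_congr rfl
      intro p hp
      rw [dn_eq g a (hsp p hp).pos, card_filter_real, one_div, ← div_eq_inv_mul]
      congr 1
      apply sum_congr rfl
      intro r _
      rw [prod_ite_zero]; simp
    rw [h2, prod_div_distrib]
    have h3 : (∏ p ∈ s, (#{r ∈ range p | ∀ i, ¬ p ∣ val (g i r) (a i) r} : ℝ)) =
        ((#{r ∈ range P | ∀ p ∈ s, ∀ i, ¬ p ∣ val (g i (r % p)) (a i) (r % p)} : ℕ) : ℝ) := by
      rw [h1]; push_cast; rfl
    rw [h3, card_filter_real, one_div, ← div_eq_inv_mul]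
    have h4 : (∏ p ∈ s, (p : ℝ)) = (P : ℝ) := by rw [hP]; push_cast; rfl
    rw [h4]
    congr 1
    apply sum_congr rfl
    intro r _
    rw [prod_ite_zero]
    simp only [hcong, prod_const_one, mem_univ, true_imp_iff]
    congr 1
    apply propext
    exact ⟨fun h i p hp => h p hp i, fun h p hp i => h i p hp⟩
  have hbox : ∀ i, ∀ r, (∑ b ∈ bx (e i) H, (if ∀ p ∈ s, ¬ p ∣ val (g i r) b r then (1 : ℝ) else 0)) ≤
      ((∏ p ∈ s, (1 - 1 / (p : ℝ))) * (1 + P / H)) * (H : ℝ) ^ (e i + 1) := by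
    intro i r
    obtain ⟨e', he'⟩ : ∃ e', e i = e' + 1 := ⟨e i - 1, by have := he i; omega⟩
    rw [he', sum_bx_succ]
    calc _ ≤ ∑ b ∈ bx e' H, ((∏ p ∈ s, (1 - 1 / (p : ℝ))) * (1 + P / H)) * H := by
          apply sum_le_sum
          intro b _
          have h1 := count_periodic P hPpos (fun u => ∀ p ∈ s, ¬ p ∣ u + (g i r + r * val 0 b r)) (by
            intro u
            apply propext
            apply forall_congr'; intro p
            apply forall_congr'; intro hp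
            have := per_dvd p P (g i r + r * val 0 b r) (dvd_prod_of_mem _ hp) u
            simp only at this
            rw [this]) H
          have h2 := crt_count s hsp (fun p u => ¬ p ∣ u + (g i r + r * val 0 b r))
          have h3 : #{u ∈ range P | ∀ p ∈ s, ¬ p ∣ u + (g i r + r * val 0 b r)} = ∏ p ∈ s, (p - 1) := by
            have e1 : ∀ p u c : ℕ, (p ∣ u % p + c) ↔ (p ∣ u + c) := by
              intro p u c
              rw [Nat.dvd_iff_mod_eq_zero, Nat.dvd_iff_mod_eq_zero, Nat.add_mod, Nat.mod_mod, ← Nat.add_mod]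
            simp only [e1] at h2
            rw [h2]
            apply prod_congr rfl
            intro p hp
            exact count_nonresidue p _ (hsp p hp).pos
          rw [h3] at h1
          have h4 : ∑ u ∈ Icc 1 H, (if ∀ p ∈ s, ¬ p ∣ val (g i r) (Fin.cons u b : Fin (e' + 1 + 1) → ℕ) r then (1 : ℝ) else 0) =
              ((#{u ∈ Icc 1 H | ∀ p ∈ s, ¬ p ∣ u + (g i r + r * val 0 b r)} : ℕ) : ℝ) := by
            rw [card_filter_real]
            apply sum_congr rfl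
            intro u _
            have : val (g i r) (Fin.cons u b : Fin (e' + 1 + 1) → ℕ) r = u + (g i r + r * val 0 b r) := by
              rw [val_cons]; ring
            rw [this]
          rw [h4]
          have h5 : ((#{u ∈ Icc 1 H | ∀ p ∈ s, ¬ p ∣ u + (g i r + r * val 0 b r)} : ℕ) : ℝ) ≤
              (((H / P + 1) * ∏ p ∈ s, (p - 1) : ℕ) : ℝ) := by exact_mod_cast h1
          refine h5.trans ?_
          have h6 : (((∏ p ∈ s, (p - 1)) : ℕ) : ℝ) = (∏ p ∈ s, (1 - 1 / (p : ℝ))) * P := by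
            rw [hP]; push_cast
            rw [← prod_mul_distrib]
            apply prod_congr rfl
            intro p hp
            have := (hsp p hp).one_lt
            rw [Nat.cast_sub this.le]
            have : (0 : ℝ) < p := by exact_mod_cast (hsp p hp).pos
            field_simp
            push_cast; ring
          rw [Nat.cast_mul, h6]
          have h7 : ((H / P : ℕ) : ℝ) ≤ H / P := Nat.cast_div_le
          have h8 : 0 ≤ ∏ p ∈ s, (1 - 1 / (p : ℝ)) := prod_nonneg fun p hp => (one_sub_pos (hsp p hp)).le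
          calc (((H / P + 1 : ℕ)) : ℝ) * ((∏ p ∈ s, (1 - 1 / (p : ℝ))) * P) ≤
              ((H : ℝ) / P + 1) * ((∏ p ∈ s, (1 - 1 / (p : ℝ))) * P) := by
                apply mul_le_mul_of_nonneg_right _ (by positivity)
                push_cast; linarith
            _ = _ := by field_simp
      _ = _ := by
          rw [sum_const, card_bx, nsmul_eq_mul]
          push_cast; ring
  have hsg : ∀ a ∈ Bx e H, sg g a y = (∏ p ∈ s, ((1 - 1 / (p : ℝ)) ^ k)⁻¹) * ((1 / (P : ℝ)) * ∑ r ∈ range P,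
      ∏ i, (if ∀ p ∈ s, ¬ p ∣ val (g i r) (a i) r then (1 : ℝ) else 0)) := by
    intro a _
    rw [← hdn a, ← prod_mul_distrib]
    rfl
  rw [sum_congr rfl hsg, ← mul_sum, ← mul_sum, sum_comm]
  have hV : 0 ≤ ∏ p ∈ s, ((1 - 1 / (p : ℝ)) ^ k)⁻¹ := prod_nonneg fun p hp => by
    have := one_sub_pos (hsp p hp); positivity
  calc _ ≤ (∏ p ∈ s, ((1 - 1 / (p : ℝ)) ^ k)⁻¹) * ((1 / (P : ℝ)) * ∑ r ∈ range P,
        ((∏ p ∈ s, (1 - 1 / (p : ℝ))) * (1 + P / H)) ^ k * #(Bx e H)) := by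
        apply mul_le_mul_of_nonneg_left _ hV
        apply mul_le_mul_of_nonneg_left _ (by positivity)
        apply sum_le_sum
        intro r _
        rw [sum_Bx_prod e H (fun i b => if ∀ p ∈ s, ¬ p ∣ val (g i r) b r then (1 : ℝ) else 0), ← sum_Bx_const_prod]
        apply prod_le_prod
        · intro i _
          apply sum_nonneg; intro b _; split_ifs <;> norm_num
        · intro i _; exact hbox i r
    _ = ((∏ p ∈ s, ((1 - 1 / (p : ℝ)) ^ k)⁻¹) * (∏ p ∈ s, (1 - 1 / (p : ℝ))) ^ k) * ((1 + P / H) ^ k * #(Bx e H)) := by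
        rw [sum_const, card_range, nsmul_eq_mul, mul_pow]
        field_simp
    _ = _ := by
        have : (∏ p ∈ s, ((1 - 1 / (p : ℝ)) ^ k)⁻¹) * (∏ p ∈ s, (1 - 1 / (p : ℝ))) ^ k = 1 := by
          rw [← prod_pow, ← prod_mul_distrib]
          apply prod_eq_one
          intro p hp
          have := one_sub_pos (hsp p hp)
          exact inv_mul_cancel₀ (by positivity)
        rw [this, one_mul]

end Pool.Agent.H373R2.BH
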