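import Mathlib
import Pool.Agent.H373R2.BH.Tail
import Pool.Agent.H373R2.BH.Moments

namespace Pool.Agent.H373R2.BH
open Finset

lemma log_Hx_pos {H x d : ℕ} (hH : 2 ≤ H) (hx : 1 ≤ x) : 0 < Real.log (H * (x : ℝ) ^ d) := by
  apply Real.log_pos
  have h1 : (2 : ℝ) ≤ H := by exact_mod_cast hH
  have h2 : (1 : ℝ) ≤ (x : ℝ) ^ d := one_le_pow₀ (by exact_mod_cast hx)
  nlinarith

lemma log_Hx_le {H x d : ℕ} (hH : 2 ≤ H) (hx : 1 ≤ x) (hxH : x ≤ H) :
    Real.log (H * (x : ℝ) ^ d) ≤ (1 + d) * Real.log H := by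
  have h1 : (2 : ℝ) ≤ H := by exact_mod_cast hH
  have h2 : (1 : ℝ) ≤ (x : ℝ) := by exact_mod_cast hx
  rw [Real.log_mul (by positivity) (by positivity), Real.log_pow]
  have h3 : Real.log x ≤ Real.log H := Real.log_le_log (by positivity) (by exact_mod_cast hxH)
  have h4 : (d : ℝ) * Real.log x ≤ d * Real.log H := mul_le_mul_of_nonneg_left h3 (Nat.cast_nonneg d)
  linarith

/-- comparison of `x / (log H)^k` and `mu` -/
lemma mu_lower {k : ℕ} (d : Fin k → ℕ) {H x : ℕ} (hH : 2 ≤ H) (hx : 1 ≤ x) (hxH : x ≤ H) :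
    (x : ℝ) / (Real.log H) ^ k ≤ (∏ i, (1 + (d i : ℝ))) * mu d H x := by
  have h1 : (2 : ℝ) ≤ H := by exact_mod_cast hH
  have hL : 0 < Real.log H := Real.log_pos (by linarith)
  have hP0 : 0 < ∏ i, Real.log (H * (x : ℝ) ^ (d i)) := prod_pos fun i _ => log_Hx_pos hH hx
  have hD0 : (0 : ℝ) < ∏ i, (1 + (d i : ℝ)) := prod_pos fun i _ => by positivity
  have hP : ∏ i, Real.log (H * (x : ℝ) ^ (d i)) ≤ (∏ i, (1 + (d i : ℝ))) * (Real.log H) ^ k := by
    calc ∏ i, Real.log (H * (x : ℝ) ^ (d i)) ≤ ∏ i, ((1 + (d i : ℝ)) * Real.log H) :=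
          prod_le_prod (fun i _ => (log_Hx_pos hH hx).le) (fun i _ => log_Hx_le hH hx hxH)
      _ = _ := by rw [prod_mul_distrib, prod_const, card_univ, Fintype.card_fin]
  unfold mu
  rw [div_le_iff₀ (by positivity), mul_div_assoc', div_mul_eq_mul_div, le_div_iff₀ hP0]
  have hx0 : (0 : ℝ) ≤ x := Nat.cast_nonneg x
  nlinarith [mul_le_mul_of_nonneg_left hP hx0]

lemma mu_pos {k : ℕ} (d : Fin k → ℕ) {H x : ℕ} (hH : 2 ≤ H) (hx : 1 ≤ x) : 0 < mu d H x := by
  unfold mu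
  have hP0 : 0 < ∏ i, Real.log (H * (x : ℝ) ^ (d i)) := prod_pos fun i _ => log_Hx_pos hH hx
  have : (0 : ℝ) < x := by exact_mod_cast hx
  positivity

/-- few coefficient vectors satisfy a linear relation between two constant terms -/
lemma dup_le {k : ℕ} (e : Fin k → ℕ) (H : ℕ) (i j : Fin k) (hij : i ≠ j) (c c' : ℕ) :
    #{a ∈ Bx e H | c + a i 0 = c' + a j 0} * H ≤ #(Bx e H) := by
  classical
  have hmem : ∀ a : (∀ i, Fin (e i + 1) → ℕ), a ∈ Bx e H ↔ ∀ i j, 1 ≤ a i j ∧ a i j ≤ H := by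
    intro a
    unfold Bx
    rw [Fintype.mem_piFinset]
    exact forall_congr' fun i => mem_bx
  have h : #({a ∈ Bx e H | c + a i 0 = c' + a j 0} ×ˢ Icc 1 H) ≤ #(Bx e H) := by
    apply card_le_card_of_injOn (fun q => Function.update q.1 i (Function.update (q.1 i) 0 q.2))
    · intro q hq
      rw [mem_coe, mem_product, mem_filter, hmem, mem_Icc] at hq
      obtain ⟨⟨h1, h2⟩, h3⟩ := hq
      rw [mem_coe, hmem]
      intro l m
      beta_reduce
      by_cases hl : l = i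
      · subst hl
        rw [Function.update_self]
        by_cases hm : m = 0
        · subst hm; rw [Function.update_self]; exact h3
        · rw [Function.update_of_ne hm]; exact h1 _ _
      · rw [Function.update_of_ne hl]; exact h1 _ _
    · intro q hq q' hq' heq
      rw [mem_coe, mem_product, mem_filter, hmem, mem_Icc] at hq hq'
      obtain ⟨⟨h1, h2⟩, h3⟩ := hq
      obtain ⟨⟨h1', h2'⟩, h3'⟩ := hq'
      simp only at heq
      have e1 := congrFun heq i
      rw [Function.update_self, Function.update_self] at e1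
      have e2 : q.2 = q'.2 := by
        have := congrFun e1 0
        rwa [Function.update_self, Function.update_self] at this
      have e3 : ∀ l, l ≠ i → q.1 l = q'.1 l := by
        intro l hl
        have := congrFun heq l
        rwa [Function.update_of_ne hl, Function.update_of_ne hl] at this
      have e4 : q.1 i 0 = q'.1 i 0 := by
        have := e3 j hij.symm
        rw [this] at h2
        omega
      have e5 : q.1 = q'.1 := by
        funext l
        by_cases hl : l = i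
        · subst hl
          funext m
          by_cases hm : m = 0
          · subst hm; exact e4
          · have := congrFun e1 m
            rwa [Function.update_of_ne hm, Function.update_of_ne hm] at this
        · exact e3 l hl
      exact Prod.ext e5 e2
  rwa [card_product, Nat.card_Icc, Nat.add_sub_cancel] at h

open Classical in
theorem core {k : ℕ} (d : Fin k → ℕ) (hd : ∀ i, 1 ≤ d i) (G : ℕ) (θ : ℝ) (hθ0 : 0 < θ) (hθ1 : θ < 1) :
    ∃ c : ℝ, 0 < c ∧ ∃ K y₀ H₀ : ℕ, 1 ≤ K ∧ ∀ H : ℕ, H₀ ≤ H → ∀ x : ℕ, (Real.log H) ^ (k + 1) ≤ x → K * x ≤ H →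
      ∀ g : Fin k → ℕ → ℕ, (∀ i, LD (g i)) → (∀ i n, 1 ≤ n → g i n ≤ G * n ^ (d i + 1)) →
      ∀ z : ℕ, y₀ ≤ z → z ^ 5 ≤ H →
      c * #(Bx d H) ≤ #((Bx d H).filter (fun a => (θ * sg g a z * mu d H x ≤ cnt g a x ∧ c * mu d H x ≤ cnt g a x) ∧
          ∀ i j, i ≠ j → g i 0 + a i 0 ≠ g j 0 + a j 0)) := by
  set θ' : ℝ := (1 + θ) / 2 with hθ'
  have hθ'1 : θ' < 1 := by rw [hθ']; linarith
  have hθ'0 : θ < θ' := by rw [hθ']; linarith
  have hθ'pos : 0 < θ' := by linarith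
  set ε : ℝ := (1 - θ') / 4 with hε
  have hε0 : 0 < ε := by rw [hε]; linarith
  have hε1 : ε ≤ 1 := by rw [hε]; linarith
  set η : ℝ := Real.log (θ' / θ) with hη
  have hη0 : 0 < η := Real.log_pos (by rw [lt_div_iff₀ hθ0]; linarith)
  have hexp : Real.exp η = θ' / θ := Real.exp_log (by positivity)
  obtain ⟨K, X₀, hK, hfirst⟩ := first_moment d G ε hε0 hε1
  obtain ⟨C, hC, H₁, hsecond⟩ := second_moment d hd G
  obtain ⟨CT, hCT, htail⟩ := tail_second k
  set D : ℝ := ∏ i, (1 + (d i : ℝ)) with hD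
  have hD0 : 0 < D := prod_pos fun i _ => by positivity
  set c₁ : ℝ := ε ^ 2 / (C * D ^ 2) with hc₁
  have hc₁0 : 0 < c₁ := by positivity
  obtain ⟨y, hy⟩ := exists_nat_gt (8 * CT / (η ^ 2 * c₁))
  have hy0 : (0 : ℝ) < y := lt_trans (by positivity) hy
  have hy1 : 1 ≤ y := by exact_mod_cast (show (0 : ℝ) < (y : ℕ) from hy0)
  set P : ℕ := ∏ p ∈ (range (y + 1)).filter Nat.Prime, p with hP
  -- the singular series average is at most 1 + ε for large H
  have hlim : Filter.Tendsto (fun H : ℕ => (1 + (P : ℝ) / (H : ℝ)) ^ k) Filter.atTop (nhds ((1 + 0) ^ k)) := by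
    apply Filter.Tendsto.pow
    exact Filter.Tendsto.add tendsto_const_nhds (tendsto_const_div_atTop_nhds_zero_nat (P : ℝ))
  rw [add_zero, one_pow] at hlim
  have hev := (hlim.eventually (gt_mem_nhds (show (1 : ℝ) < 1 + ε by linarith)))
  obtain ⟨H₂, hH₂⟩ := Filter.eventually_atTop.1 hev
  obtain ⟨H₃, hH₃⟩ := exists_nat_gt (4 * (k : ℝ) ^ 2 / c₁)
  have hlogt : Filter.Tendsto (fun H : ℕ => Real.log (H : ℝ)) Filter.atTop Filter.atTop :=
    Real.tendsto_log_atTop.comp tendsto_natCast_atTop_atTop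
  obtain ⟨H₄, hH₄⟩ := Filter.eventually_atTop.1 (hlogt.eventually_ge_atTop ((X₀ : ℝ) + 1))
  refine ⟨min (c₁ / 2) ε, lt_min (by positivity) hε0, K, y, H₁ + H₂ + H₃ + H₄ + 2, hK,
    fun H hH x hxL hKx g hg hgb z hyz hz5 => ?_⟩
  set B := Bx d H with hB
  set N : ℝ := (#B : ℝ) with hN
  have hN0 : 0 ≤ N := Nat.cast_nonneg _
  have hH2 : 2 ≤ H := by omega
  have hHr : (2 : ℝ) ≤ H := by exact_mod_cast hH2
  have hHpos : (0 : ℝ) < H := by linarith
  have hlog : (X₀ : ℝ) + 1 ≤ Real.log H := hH₄ H (by omega)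
  have hX₀0 : (0 : ℝ) ≤ X₀ := Nat.cast_nonneg _
  have hlog1 : 1 ≤ Real.log H := by linarith
  have hlogx : Real.log H ≤ x := by
    calc Real.log H = (Real.log H) ^ 1 := (pow_one _).symm
      _ ≤ (Real.log H) ^ (k + 1) := pow_le_pow_right₀ hlog1 (by omega)
      _ ≤ x := hxL
  have hx0 : X₀ ≤ x := by
    have : (X₀ : ℝ) ≤ x := by linarith
    exact_mod_cast this
  have hx1 : 1 ≤ x := by
    have : (1 : ℝ) ≤ x := by linarith
    exact_mod_cast this
  have hxH : x ≤ H := le_trans (by nlinarith) hKx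
  have hxLk : (Real.log H) ^ k ≤ x := (pow_le_pow_right₀ hlog1 (by omega)).trans hxL
  have hz1 : 1 ≤ z := hy1.trans hyz
  have hz2 : z ^ 2 ≤ H := (Nat.pow_le_pow_right hz1 (by norm_num)).trans hz5
  set μ := mu d H x with hμ
  have hμ0 : 0 < μ := mu_pos d hH2 hx1
  have hF1 : (1 - ε) * (μ * N) ≤ ∑ a ∈ B, (cnt g a x : ℝ) := hfirst H x hx0 hKx g hgb
  have hF2 : ∑ a ∈ B, (cnt g a x : ℝ) ^ 2 ≤ C * (D ^ 2 * μ ^ 2 * N) := by
    refine (hsecond H x (by omega) hxH hxLk g hg hgb).trans ?_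
    apply mul_le_mul_of_nonneg_left _ hC.le
    apply mul_le_mul_of_nonneg_right _ hN0
    have h1 := mu_lower d hH2 hx1 hxH
    have h2 : (0 : ℝ) ≤ (x : ℝ) / (Real.log H) ^ k := by positivity
    calc (x : ℝ) ^ 2 / (Real.log H) ^ (2 * k) = ((x : ℝ) / (Real.log H) ^ k) ^ 2 := by
          rw [div_pow, ← pow_mul, mul_comm k 2]
      _ ≤ (D * μ) ^ 2 := pow_le_pow_left₀ h2 h1 2
      _ = _ := by ring
  have hF4 : ∑ a ∈ B, sg g a y ≤ (1 + ε) * N := by
    refine (sum_sg_le hd g hg y H (by omega)).trans ?_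
    apply mul_le_mul_of_nonneg_right _ hN0
    exact (hH₂ H (by omega)).le
  -- good set
  set S₀ := B.filter (fun a => θ' * sg g a y * μ ≤ cnt g a x ∧ ε * μ ≤ cnt g a x) with hS₀
  have hsplit : ∑ a ∈ B, (cnt g a x : ℝ) ≤ ∑ a ∈ S₀, (cnt g a x : ℝ) + ∑ a ∈ B, θ' * sg g a y * μ + ∑ a ∈ B, ε * μ := by
    have h1 : ∀ a ∈ B, (cnt g a x : ℝ) ≤
        (if θ' * sg g a y * μ ≤ cnt g a x ∧ ε * μ ≤ cnt g a x then (cnt g a x : ℝ) else 0) + θ' * sg g a y * μ + ε * μ := by
      intro a _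
      have hs := sg_nonneg g a y
      have h2 : 0 ≤ θ' * sg g a y * μ := by positivity
      have h3 : 0 ≤ ε * μ := by positivity
      split_ifs with h
      · linarith
      · rw [not_and_or, not_le, not_le] at h
        rcases h with h | h <;> linarith
    calc ∑ a ∈ B, (cnt g a x : ℝ) ≤ ∑ a ∈ B,
        ((if θ' * sg g a y * μ ≤ cnt g a x ∧ ε * μ ≤ cnt g a x then (cnt g a x : ℝ) else 0) + θ' * sg g a y * μ + ε * μ) :=
          sum_le_sum h1
      _ = _ := by
          rw [sum_add_distrib, sum_add_distrib, hS₀, sum_filter]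
  have hsg : ∑ a ∈ B, θ' * sg g a y * μ ≤ θ' * (1 + ε) * (μ * N) := by
    have : ∑ a ∈ B, θ' * sg g a y * μ = θ' * μ * ∑ a ∈ B, sg g a y := by
      rw [mul_sum]; apply sum_congr rfl; intro a _; ring
    rw [this]
    have := mul_le_mul_of_nonneg_left hF4 (show 0 ≤ θ' * μ by positivity)
    nlinarith
  have hcst : ∑ a ∈ B, ε * μ = ε * (μ * N) := by
    rw [sum_const, nsmul_eq_mul]; ring
  have hS₀sum : ε * (μ * N) ≤ ∑ a ∈ S₀, (cnt g a x : ℝ) := by
    have hμN : 0 ≤ μ * N := by positivity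
    have h1 : ε ≤ (1 - ε) - θ' * (1 + ε) - ε := by
      have : θ' * ε ≤ ε := by nlinarith
      have : 4 * ε = 1 - θ' := by rw [hε]; ring
      nlinarith
    have h2 := mul_le_mul_of_nonneg_right h1 hμN
    nlinarith
  have hcauchy : (∑ a ∈ S₀, (cnt g a x : ℝ)) ^ 2 ≤ #S₀ * ∑ a ∈ S₀, (cnt g a x : ℝ) ^ 2 := sq_sum_le_card_mul_sum_sq
  have hsub : ∑ a ∈ S₀, (cnt g a x : ℝ) ^ 2 ≤ ∑ a ∈ B, (cnt g a x : ℝ) ^ 2 :=
    sum_le_sum_of_subset_of_nonneg (filter_subset _ _) fun _ _ _ => by positivity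
  have hS₀card : c₁ * N ≤ #S₀ := by
    rcases hN0.eq_or_lt with h0 | h0
    · rw [← h0, mul_zero]; exact Nat.cast_nonneg _
    · have h1 : (ε * (μ * N)) ^ 2 ≤ #S₀ * (C * (D ^ 2 * μ ^ 2 * N)) := by
        calc (ε * (μ * N)) ^ 2 ≤ (∑ a ∈ S₀, (cnt g a x : ℝ)) ^ 2 :=
              pow_le_pow_left₀ (by positivity) hS₀sum 2
          _ ≤ _ := hcauchy
          _ ≤ _ := mul_le_mul_of_nonneg_left (hsub.trans hF2) (Nat.cast_nonneg _)
      rw [hc₁, div_mul_eq_mul_div, div_le_iff₀ (by positivity)]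
      have h2 : 0 < μ ^ 2 * N := by positivity
      apply le_of_mul_le_mul_right _ h2
      calc ε ^ 2 * N * (μ ^ 2 * N) = (ε * (μ * N)) ^ 2 := by ring
        _ ≤ _ := h1
        _ = _ := by ring
  -- bad tails
  set T := B.filter (fun a => η < TT g a y z) with hT
  have hTcard : (#T : ℝ) ≤ c₁ / 4 * N := by
    have h1 : η ^ 2 * #T ≤ ∑ a ∈ B, (TT g a y z) ^ 2 := by
      calc η ^ 2 * #T = ∑ a ∈ T, η ^ 2 := by rw [sum_const, nsmul_eq_mul]; ring
        _ ≤ ∑ a ∈ T, (TT g a y z) ^ 2 := by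
            apply sum_le_sum
            intro a ha
            rw [hT, mem_filter] at ha
            exact pow_le_pow_left₀ hη0.le ha.2.le 2
        _ ≤ _ := sum_le_sum_of_subset_of_nonneg (filter_subset _ _) fun _ _ _ => by positivity
    have h2 := htail d hd g H y z hy1 hz2 hH2
    have h3 : (z : ℝ) ^ 4 / H ≤ 1 / y := by
      rw [div_le_div_iff₀ hHpos hy0, one_mul]
      have h4 : ((z : ℝ) ^ 4) * y ≤ (z : ℝ) ^ 4 * z := by
        apply mul_le_mul_of_nonneg_left _ (by positivity)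
        exact_mod_cast hyz
      have h5 : (z : ℝ) ^ 5 ≤ H := by exact_mod_cast hz5
      calc (z : ℝ) ^ 4 * y ≤ (z : ℝ) ^ 4 * z := h4
        _ = (z : ℝ) ^ 5 := by ring
        _ ≤ H := h5
    have h4 : η ^ 2 * #T ≤ CT * (1 / y + 1 / y) * N := by
      refine h1.trans (h2.trans ?_)
      apply mul_le_mul_of_nonneg_right _ hN0
      apply mul_le_mul_of_nonneg_left _ hCT.le
      linarith
    have h5 : CT * (1 / y + 1 / y) ≤ η ^ 2 * (c₁ / 4) := by
      rw [div_lt_iff₀ (by positivity)] at hy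
      have : CT * (1 / (y : ℝ) + 1 / y) = 2 * CT / y := by ring
      rw [this, div_le_iff₀ hy0]
      nlinarith
    have h6 := h4.trans (mul_le_mul_of_nonneg_right h5 hN0)
    have h7 : 0 < η ^ 2 := by positivity
    nlinarith
  -- duplicates
  set U := (univ : Finset (Fin k × Fin k)).biUnion (fun q => if q.1 ≠ q.2 then
    B.filter (fun a => g q.1 0 + a q.1 0 = g q.2 0 + a q.2 0) else ∅) with hU
  have hUcard : (#U : ℝ) ≤ c₁ / 4 * N := by
    have h1 : #U ≤ ∑ q : Fin k × Fin k, #(if q.1 ≠ q.2 then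
        B.filter (fun a => g q.1 0 + a q.1 0 = g q.2 0 + a q.2 0) else ∅) := card_biUnion_le
    have h2 : ∀ q : Fin k × Fin k, (#(if q.1 ≠ q.2 then
        B.filter (fun a => g q.1 0 + a q.1 0 = g q.2 0 + a q.2 0) else ∅) : ℝ) ≤ N / H := by
      intro q
      split_ifs with h
      · rw [le_div_iff₀ hHpos]
        have := dup_le d H q.1 q.2 h (g q.1 0) (g q.2 0)
        rw [hN]
        exact_mod_cast this
      · simp; positivity
    have h3 : (#U : ℝ) ≤ (k : ℝ) ^ 2 * (N / H) := by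
      calc (#U : ℝ) ≤ ∑ q : Fin k × Fin k, (#(if q.1 ≠ q.2 then
          B.filter (fun a => g q.1 0 + a q.1 0 = g q.2 0 + a q.2 0) else ∅) : ℝ) := by exact_mod_cast h1
        _ ≤ ∑ q : Fin k × Fin k, N / H := sum_le_sum fun q _ => h2 q
        _ = _ := by rw [sum_const, card_univ, Fintype.card_prod, Fintype.card_fin, nsmul_eq_mul]; push_cast; ring
    refine h3.trans ?_
    have h4 : 4 * (k : ℝ) ^ 2 / c₁ < H := hH₃.trans_le (by exact_mod_cast (by omega : H₃ ≤ H))
    rw [div_lt_iff₀ hc₁0] at h4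
    rw [mul_div_assoc', div_le_iff₀ hHpos]
    nlinarith
  -- conclusion
  have hsubset : S₀ ⊆ (B.filter (fun a => (θ * sg g a z * μ ≤ cnt g a x ∧ min (c₁ / 2) ε * μ ≤ cnt g a x) ∧
          ∀ i j, i ≠ j → g i 0 + a i 0 ≠ g j 0 + a j 0)) ∪ (T ∪ U) := by
    intro a ha
    rw [hS₀, mem_filter] at ha
    obtain ⟨haB, h1, h2⟩ := ha
    by_cases hTa : a ∈ T
    · exact mem_union_right _ (mem_union_left _ hTa)
    by_cases hUa : a ∈ U
    · exact mem_union_right _ (mem_union_right _ hUa)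
    apply mem_union_left
    rw [mem_filter]
    refine ⟨haB, ⟨?_, ?_⟩, ?_⟩
    · have hTT : TT g a y z ≤ η := by
        by_contra hcon
        exact hTa (mem_filter.2 ⟨haB, not_le.1 hcon⟩)
      have h3 := sg_le g a y z hyz
      have h4 : sg g a y * Real.exp (TT g a y z) ≤ sg g a y * (θ' / θ) := by
        apply mul_le_mul_of_nonneg_left _ (sg_nonneg g a y)
        rw [← hexp]; exact Real.exp_le_exp.2 hTT
      have h5 : θ * sg g a z ≤ θ' * sg g a y := by
        have := mul_le_mul_of_nonneg_left (h3.trans h4) hθ0.le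
        calc θ * sg g a z ≤ θ * (sg g a y * (θ' / θ)) := this
          _ = θ' * sg g a y := by field_simp
      exact (mul_le_mul_of_nonneg_right h5 hμ0.le).trans h1
    · refine le_trans ?_ h2
      exact mul_le_mul_of_nonneg_right (min_le_right _ _) hμ0.le
    · intro i j hij heq
      apply hUa
      rw [hU, mem_biUnion]
      refine ⟨(i, j), mem_univ _, ?_⟩
      simp only [ne_eq, hij, not_false_eq_true, if_true]
      rw [mem_filter]
      exact ⟨haB, heq⟩
  have hfin := (card_le_card hsubset).trans (card_union_le _ _)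
  have hfin2 := card_union_le T U
  have hfin3 : (#S₀ : ℝ) ≤ #(B.filter (fun a => (θ * sg g a z * μ ≤ cnt g a x ∧ min (c₁ / 2) ε * μ ≤ cnt g a x) ∧
          ∀ i j, i ≠ j → g i 0 + a i 0 ≠ g j 0 + a j 0)) + (#T + #U) := by
    exact_mod_cast hfin.trans (Nat.add_le_add_left hfin2 _)
  have hmin : min (c₁ / 2) ε * N ≤ c₁ / 2 * N := mul_le_mul_of_nonneg_right (min_le_left _ _) hN0
  linarith

end Pool.Agent.H373R2.BH
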