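import Mathlib
import Pool.Agent.H373R2.BH.Core
import Pool.Agent.H373R2.BH.Poly

namespace Pool.Agent.H373R2.BH
open Finset Polynomial

variable {k : ℕ} {d : Fin k → ℕ}

lemma polys_eval (g : Fin k → ℕ[X]) (a : ∀ i, Fin (d i + 1) → ℕ) (i : Fin k) (n : ℕ) :
    (polys g a i).eval (n : ℤ) = (val ((g i).eval n) (a i) n : ℕ) := by
  unfold polys val
  rw [← Nat.cast_id n, eval_natCast_map]
  simp [eval_finsetSum]

lemma primeCount_polys (g : Fin k → ℕ[X]) (a : ∀ i, Fin (d i + 1) → ℕ) (x : ℕ) :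
    primeCount (polys g a) x = cnt (fun i n => (g i).eval n) a x := by
  unfold primeCount cnt
  congr 1
  apply filter_congr
  intro n _
  apply forall_congr'
  intro i
  rw [polys_eval, Int.toNat_natCast]

lemma omegaP_polys (g : Fin k → ℕ[X]) (a : ∀ i, Fin (d i + 1) → ℕ) (p : ℕ) :
    omegaP (polys g a) p = om (fun i n => (g i).eval n) a p := by
  unfold omegaP om
  congr 1
  apply filter_congr
  intro n _
  apply exists_congr
  intro i
  rw [polys_eval, Int.natCast_dvd_natCast]

lemma eulerProduct_polys (g : Fin k → ℕ[X]) (a : ∀ i, Fin (d i + 1) → ℕ) (z : ℕ) :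
    eulerProduct (polys g a) z = sg (fun i n => (g i).eval n) a z := by
  unfold eulerProduct sg
  apply prod_congr rfl
  intro p _
  unfold uf dn
  rw [omegaP_polys]

lemma LD_eval (g : ℕ[X]) : LD (fun n => g.eval n) := by
  have : (fun n => g.eval n) = fun n => ∑ j ∈ range (g.natDegree + 1), g.coeff j * n ^ j := by
    funext n; exact eval_eq_sum_range n
  rw [this]
  exact LD.sum _ _ fun j _ => LD.const_mul _ (LD.pow j)

lemma eval_bound (g : ℕ[X]) (m : ℕ) (hg : g.natDegree ≤ m) (n : ℕ) (hn : 1 ≤ n) : g.eval n ≤ g.eval 1 * n ^ m := by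
  rw [eval_eq_sum_range, eval_eq_sum_range, sum_mul]
  apply sum_le_sum
  intro j hj
  rw [mem_range] at hj
  rw [one_pow, mul_one]
  exact Nat.mul_le_mul_left _ (Nat.pow_le_pow_right hn (by omega))

/-- The natural-number polynomial. -/
noncomputable def npoly (g : ℕ[X]) {e : ℕ} (b : Fin (e + 1) → ℕ) : ℕ[X] := g + ∑ j : Fin (e + 1), C (b j) * X ^ (j : ℕ)

lemma npoly_coeff (g : ℕ[X]) {e : ℕ} (b : Fin (e + 1) → ℕ) (m : Fin (e + 1)) : (npoly g b).coeff m = g.coeff m + b m := by
  unfold npoly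
  rw [coeff_add, finsetSum_coeff]
  congr 1
  rw [sum_eq_single m]
  · simp
  · intro j _ hj
    rw [coeff_C_mul, coeff_X_pow, if_neg, mul_zero]
    intro h
    exact hj (Fin.ext h.symm)
  · intro h; exact absurd (mem_univ _) h

lemma npoly_natDegree_le (g : ℕ[X]) {e : ℕ} (b : Fin (e + 1) → ℕ) (hg : g.natDegree ≤ e + 1) :
    (npoly g b).natDegree ≤ e + 1 := by
  unfold npoly
  refine (natDegree_add_le _ _).trans (max_le hg ?_)
  apply natDegree_sum_le_of_forall_le
  intro j _
  refine (natDegree_C_mul_X_pow_le _ _).trans ?_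
  omega

lemma npoly_natDegree_ge (g : ℕ[X]) {e : ℕ} (b : Fin (e + 1) → ℕ) (hb : 1 ≤ b (Fin.last e)) :
    e ≤ (npoly g b).natDegree := by
  apply le_natDegree_of_ne_zero
  have := npoly_coeff g b (Fin.last e)
  rw [Fin.val_last] at this
  rw [this]
  omega

lemma polys_eq_map (g : Fin k → ℕ[X]) (a : ∀ i, Fin (d i + 1) → ℕ) (i : Fin k) :
    polys g a i = (npoly (g i) (a i)).map (Nat.castRingHom ℤ) := rfl

lemma castInj : Function.Injective (Nat.castRingHom ℤ) := fun m n h => by
  simpa using h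

lemma polys_natDegree (g : Fin k → ℕ[X]) (a : ∀ i, Fin (d i + 1) → ℕ) (i : Fin k) :
    (polys g a i).natDegree = (npoly (g i) (a i)).natDegree := by
  rw [polys_eq_map, natDegree_map_eq_of_injective castInj]

lemma polys_leadingCoeff (g : Fin k → ℕ[X]) (a : ∀ i, Fin (d i + 1) → ℕ) (i : Fin k) :
    (polys g a i).leadingCoeff = ((npoly (g i) (a i)).leadingCoeff : ℤ) := by
  rw [polys_eq_map, leadingCoeff_map_of_injective castInj]
  rfl

lemma mem_Bx {e : Fin k → ℕ} {H : ℕ} {a : ∀ i, Fin (e i + 1) → ℕ} : a ∈ Bx e H ↔ ∀ i j, 1 ≤ a i j ∧ a i j ≤ H := by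
  unfold Bx
  rw [Fintype.mem_piFinset]
  exact forall_congr' fun i => mem_bx

open Classical in
theorem height_proportion (d : Fin k → ℕ) (hd : ∀ i, 1 ≤ d i) (g : Fin k → ℕ[X])
    (hg : ∀ i, (g i).natDegree ≤ d i + 1) (θ : ℝ) (hθ0 : 0 < θ) (hθ1 : θ < 1) :
    ∃ c : ℝ, 0 < c ∧ ∃ K y₀ H₀ : ℕ, 1 ≤ K ∧ ∀ H : ℕ, H₀ ≤ H → ∀ x : ℕ, (Real.log H) ^ (k + 1) ≤ x → K * x ≤ H →
      ∀ z : ℕ, y₀ ≤ z → z ^ 5 ≤ H →
      c * #(Bx d H) ≤ #((Bx d H).filter (fun a => BHFamily (polys g a) ∧
        θ * eulerProduct (polys g a) z * (x / ∏ i, Real.log (H * (x : ℝ) ^ (d i))) ≤ primeCount (polys g a) x ∧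
        c * (x / ∏ i, Real.log (H * (x : ℝ) ^ (d i))) ≤ primeCount (polys g a) x)) := by
  set g' : Fin k → ℕ → ℕ := fun i n => (g i).eval n with hg'
  obtain ⟨c, hc, K, y₀, H₀, hK, hcore⟩ := core d hd (∑ i, (g i).eval 1) θ hθ0 hθ1
  set D : ℝ := ∏ i, (1 + (d i : ℝ)) with hD
  have hD0 : 0 < D := prod_pos fun i _ => by positivity
  set M : ℕ := ∑ i, (d i + 1) with hM
  have hlogt : Filter.Tendsto (fun H : ℕ => Real.log (H : ℝ)) Filter.atTop Filter.atTop :=
    Real.tendsto_log_atTop.comp tendsto_natCast_atTop_atTop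
  obtain ⟨H₁, hH₁⟩ := Filter.eventually_atTop.1 (hlogt.eventually_ge_atTop (1 + (2 * M + 1) * D / c))
  refine ⟨c, hc, K, y₀, H₀ + H₁ + 2, hK, fun H hH x hxL hKx z hz hz5 => ?_⟩
  have hlogH := hH₁ H (by omega)
  have h0 : 0 ≤ (2 * M + 1) * D / c := by positivity
  have hlog1 : 1 ≤ Real.log H := by linarith
  have hlogx : Real.log H ≤ x := by
    calc Real.log H = (Real.log H) ^ 1 := (pow_one _).symm
      _ ≤ (Real.log H) ^ (k + 1) := pow_le_pow_right₀ hlog1 (by omega)
      _ ≤ x := hxL
  have hx1 : 1 ≤ x := by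
    have : (1 : ℝ) ≤ x := by linarith
    exact_mod_cast this
  have hxH : x ≤ H := le_trans (by nlinarith) hKx
  have hH2 : 2 ≤ H := by omega
  have hμ : Real.log H ≤ D * mu d H x := by
    refine le_trans ?_ (mu_lower d hH2 hx1 hxH)
    rw [le_div_iff₀ (by positivity)]
    calc Real.log H * Real.log H ^ k = Real.log H ^ (k + 1) := by ring
      _ ≤ x := hxL
  have hbig : (2 * M + 1 : ℝ) ≤ c * mu d H x := by
    have h1 : (2 * M + 1) * D / c ≤ D * mu d H x := by linarith
    rw [div_le_iff₀ hc] at h1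
    apply le_of_mul_le_mul_right _ hD0
    linarith
  have h := hcore H (by omega) x hxL hKx g' (fun i => LD_eval (g i)) (fun i n hn => ?_) z hz hz5
  · refine h.trans ?_
    have hsub : (Bx d H).filter (fun a => (θ * sg g' a z * mu d H x ≤ cnt g' a x ∧ c * mu d H x ≤ cnt g' a x) ∧
          ∀ i j, i ≠ j → g' i 0 + a i 0 ≠ g' j 0 + a j 0) ⊆
        (Bx d H).filter (fun a => BHFamily (polys g a) ∧
        θ * eulerProduct (polys g a) z * (x / ∏ i, Real.log (H * (x : ℝ) ^ (d i))) ≤ primeCount (polys g a) x ∧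
        c * (x / ∏ i, Real.log (H * (x : ℝ) ^ (d i))) ≤ primeCount (polys g a) x) := by
      intro a ha
      rw [mem_filter] at ha ⊢
      obtain ⟨haB, ⟨h1, h2⟩, h3⟩ := ha
      refine ⟨haB, ?_, ?_, ?_⟩
      · rw [mem_Bx] at haB
        have hdegle : ∀ i, (polys g a i).natDegree ≤ d i + 1 := fun i => by
          rw [polys_natDegree]; exact npoly_natDegree_le _ _ (hg i)
        have hdegge : ∀ i, d i ≤ (polys g a i).natDegree := fun i => by
          rw [polys_natDegree]; exact npoly_natDegree_ge _ _ (haB i _).1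
        apply BHFamily_of_many _ _ _ _ x
        · have h4 : ∑ i, (polys g a i).natDegree ≤ M := sum_le_sum fun i _ => hdegle i
          rw [primeCount_polys]
          have h5 : (2 * M + 1 : ℝ) ≤ cnt g' a x := hbig.trans h2
          have h6 : 2 * M + 1 ≤ cnt g' a x := by exact_mod_cast h5
          rw [hg'] at h6
          omega
        · intro i j hij
          by_contra hne
          apply h3 i j hne
          have h4 := polys_eval g a i 0
          have h5 := polys_eval g a j 0
          rw [hij, h5] at h4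
          have h6 : ∀ i, val (eval 0 (g i)) (a i) 0 = g' i 0 + a i 0 := by
            intro i
            unfold val
            rw [hg', Fin.sum_univ_succ]
            simp
          have h7 : val (eval 0 (g j)) (a j) 0 = val (eval 0 (g i)) (a i) 0 := by exact_mod_cast h4
          rw [h6, h6] at h7
          exact h7.symm
        · intro i
          exact lt_of_lt_of_le (hd i) (hdegge i)
        · intro i
          rw [polys_leadingCoeff]
          have h4 : npoly (g i) (a i) ≠ 0 := by
            intro h0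
            have h5 := npoly_natDegree_ge (g i) (a i) (haB i _).1
            rw [h0, natDegree_zero] at h5
            have := hd i
            omega
          have h5 : (npoly (g i) (a i)).leadingCoeff ≠ 0 := leadingCoeff_ne_zero.2 h4
          exact_mod_cast Nat.pos_of_ne_zero h5
      · rw [eulerProduct_polys, primeCount_polys]
        exact h1
      · rw [primeCount_polys]
        exact h2
    exact_mod_cast card_le_card hsub
  · refine (eval_bound (g i) (d i + 1) (hg i) n hn).trans ?_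
    apply Nat.mul_le_mul_right
    exact single_le_sum (f := fun i => (g i).eval 1) (fun _ _ => Nat.zero_le _) (mem_univ i)

end Pool.Agent.H373R2.BH
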